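import Pool.Agent.AltFew.Count55

/-! The number of values in one step of the recursion. -/

namespace Pool.Agent.AltFew

/-- The number of values in one step. -/
def Phi (n s K : ℕ) : ℕ := ∑ k ∈ Finset.range (s + 2 * K + 2), Cb (2 * n) (3 * k + 1)

end Pool.Agent.AltFew
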