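import Pool.Agent.AltHP.Cut
import Pool.Agent.AltALL.Detour71

/-! A vertex of the hull, the angular order around it, and the initial segments of this order. -/

namespace Pool.Agent.AltFew

open Pool.Agent.AltPath Pool.Agent.AltHP Pool.Agent.HPD79

/-- v is a vertex of the hull of P and I m is the set of the first m of the other points in the
angular order around v; the line through v with normal vector w1 - c m • w0 separates I m from the
remaining points. -/
structure HullOrd (P : Finset (ℝ × ℝ)) (v w0 w1 : ℝ × ℝ) (I : ℕ → Finset (ℝ × ℝ))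
    (c : ℕ → ℝ) : Prop where
  hv : v ∈ P
  pos : ∀ q ∈ P.erase v, 0 < dt w0 (q - v)
  cr0 : cr w0 w1 ≠ 0
  sub : ∀ m, I m ⊆ P.erase v
  mono : ∀ m m', m ≤ m' → I m ⊆ I m'
  card : ∀ m, m < P.card → (I m).card = m
  full : I (P.card - 1) = P.erase v
  low : ∀ m, ∀ q ∈ I m, dt (w1 - c m • w0) (q - v) < 0
  up : ∀ m, ∀ q ∈ P.erase v, q ∉ I m → 0 < dt (w1 - c m • w0) (q - v)

section rank

variable {α : Type*} (Q : Finset α) (t : α → ℝ)

/-- The number of points of Q before q. -/
noncomputable def rk (q : α) : ℕ := by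
  classical exact (Q.filter (fun r => t r < t q)).card

theorem rk_lt {q : α} (hq : q ∈ Q) : rk Q t q < Q.card := by
  classical
  unfold rk
  have h1 : Q.filter (fun r => t r < t q) ⊆ Q.erase q := by
    intro r hr
    obtain ⟨hr1, hr2⟩ := Finset.mem_filter.mp hr
    refine Finset.mem_erase.mpr ⟨?_, hr1⟩
    rintro rfl
    exact lt_irrefl _ hr2
  have h2 := Finset.card_le_card h1
  rw [Finset.card_erase_of_mem hq] at h2
  have h3 := Finset.card_pos.mpr ⟨q, hq⟩
  omega

theorem rk_le {q q' : α} (h : t q ≤ t q') : rk Q t q ≤ rk Q t q' := by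
  classical
  unfold rk
  apply Finset.card_le_card
  intro r hr
  obtain ⟨hr1, hr2⟩ := Finset.mem_filter.mp hr
  exact Finset.mem_filter.mpr ⟨hr1, hr2.trans_le h⟩

theorem rk_lt_rk {q q' : α} (hq : q ∈ Q) (h : t q < t q') : rk Q t q < rk Q t q' := by
  classical
  unfold rk
  apply Finset.card_lt_card
  rw [Finset.ssubset_iff_of_subset]
  · exact ⟨q, Finset.mem_filter.mpr ⟨hq, h⟩, fun h' => lt_irrefl _ (Finset.mem_filter.mp h').2⟩
  · intro r hr
    obtain ⟨hr1, hr2⟩ := Finset.mem_filter.mp hr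
    exact Finset.mem_filter.mpr ⟨hr1, hr2.trans h⟩

/-- The first m points of Q. -/
noncomputable def ini (m : ℕ) : Finset α := by
  classical exact Q.filter (fun q => rk Q t q < m)

theorem mem_ini {m : ℕ} {q : α} : q ∈ ini Q t m ↔ q ∈ Q ∧ rk Q t q < m := by
  classical
  unfold ini
  exact Finset.mem_filter

theorem ini_card (hinj : ∀ q ∈ Q, ∀ q' ∈ Q, t q = t q' → q = q') {m : ℕ} (hm : m ≤ Q.card) :
    (ini Q t m).card = m := by
  classical
  have hrk : ∀ q ∈ Q, ∀ q' ∈ Q, rk Q t q = rk Q t q' → q = q' := by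
    intro q hq q' hq' h
    rcases lt_trichotomy (t q) (t q') with h1 | h1 | h1
    · have := rk_lt_rk Q t hq h1
      omega
    · exact hinj q hq q' hq' h1
    · have := rk_lt_rk Q t hq' h1
      omega
  have himg : Q.image (rk Q t) = Finset.range Q.card := by
    apply Finset.eq_of_subset_of_card_le
    · intro i hi
      obtain ⟨q, hq, rfl⟩ := Finset.mem_image.mp hi
      exact Finset.mem_range.mpr (rk_lt Q t hq)
    · rw [Finset.card_range, Finset.card_image_of_injOn]
      intro q hq q' hq' h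
      exact hrk q (Finset.mem_coe.mp hq) q' (Finset.mem_coe.mp hq') h
  have h2 : (ini Q t m).image (rk Q t) = Finset.range m := by
    ext i
    rw [Finset.mem_image, Finset.mem_range]
    constructor
    · rintro ⟨q, hq, rfl⟩
      exact ((mem_ini Q t).mp hq).2
    · intro hi
      have h3 : i ∈ Q.image (rk Q t) := by
        rw [himg, Finset.mem_range]; omega
      obtain ⟨q, hq, rfl⟩ := Finset.mem_image.mp h3
      exact ⟨q, (mem_ini Q t).mpr ⟨hq, hi⟩, rfl⟩
  have h4 := Finset.card_image_of_injOn (s := ini Q t m) (f := rk Q t) (by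
    intro q hq q' hq' h
    exact hrk q ((mem_ini Q t).mp (Finset.mem_coe.mp hq)).1 q'
      ((mem_ini Q t).mp (Finset.mem_coe.mp hq')).1 h)
  rw [h2, Finset.card_range] at h4
  exact h4.symm

theorem exists_thr (m : ℕ) : ∃ c : ℝ, (∀ q ∈ ini Q t m, t q < c) ∧
    ∀ q ∈ Q, q ∉ ini Q t m → c < t q := by
  classical
  obtain ⟨c, h1, h2⟩ := Order.exists_between_finsets ((ini Q t m).image t)
    ((Q \ ini Q t m).image t) (by
      intro x hx y hy
      obtain ⟨q, hq, rfl⟩ := Finset.mem_image.mp hx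
      obtain ⟨q', hq', rfl⟩ := Finset.mem_image.mp hy
      obtain ⟨hq1, hq2⟩ := Finset.mem_sdiff.mp hq'
      by_contra hcon
      push Not at hcon
      have h3 := rk_le Q t hcon
      exact hq2 ((mem_ini Q t).mpr ⟨hq1, h3.trans_lt ((mem_ini Q t).mp hq).2⟩))
  exact ⟨c, fun q hq => h1 _ (Finset.mem_image_of_mem t hq),
    fun q hq hq' => h2 _ (Finset.mem_image_of_mem t (Finset.mem_sdiff.mpr ⟨hq, hq'⟩))⟩

end rank

/-- There is a vertex of the hull with the angular order around it. -/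
theorem exists_hullOrd {P : Finset (ℝ × ℝ)} (hgp : GP P) (hne : P.Nonempty) :
    ∃ v w0 w1 I c, HullOrd P v w0 w1 I c := by
  classical
  obtain ⟨v, hv, a, ha⟩ := exists_sep P hne
  obtain ⟨w0, hw0, hw0p⟩ : ∃ w0 : ℝ × ℝ, w0 ≠ 0 ∧ ∀ q ∈ P.erase v, 0 < dt w0 (q - v) := by
    rcases Finset.eq_empty_or_nonempty (P.erase v) with h | h
    · refine ⟨(1, 0), ?_, ?_⟩
      · intro h0
        have := congrArg Prod.fst h0
        simp at this
      · rw [h]
        exact fun q hq => absurd hq (Finset.notMem_empty q)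
    · refine ⟨a, ?_, ha⟩
      rintro rfl
      obtain ⟨q, hq⟩ := h
      have := ha q hq
      simp [dt] at this
  obtain ⟨w1, hw1⟩ : ∃ w1 : ℝ × ℝ, w1 = (-w0.2, w0.1) := ⟨_, rfl⟩
  have hcr : cr w0 w1 ≠ 0 := by
    have h1 := dt_self_pos hw0
    have h2 : cr w0 w1 = dt w0 w0 := by
      rw [hw1]; simp only [cr, dt]; ring
    rw [h2]; exact h1.ne'
  obtain ⟨t, ht⟩ : ∃ t : ℝ × ℝ → ℝ, ∀ q, t q = dt w1 (q - v) / dt w0 (q - v) := ⟨_, fun _ => rfl⟩
  have ht' : ∀ q ∈ P.erase v, t q * dt w0 (q - v) = dt w1 (q - v) := by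
    intro q hq
    rw [ht]; exact div_mul_cancel₀ _ (hw0p q hq).ne'
  have hinj : ∀ q ∈ P.erase v, ∀ q' ∈ P.erase v, t q = t q' → q = q' := by
    intro q hq q' hq' h
    by_contra hne'
    obtain ⟨hq1, hq2⟩ := Finset.mem_erase.mp hq
    obtain ⟨hq1', hq2'⟩ := Finset.mem_erase.mp hq'
    have h1 := ht' q hq
    have h2 := ht' q' hq'
    rw [dt_sub, dt_sub] at h1 h2
    refine gp_line hgp hv hq2 hq2' (Ne.symm hq1) (Ne.symm hq1') hne'
      (sub_smul_ne_zero hcr (t q)) ?_ ?_
    · rw [dt_sub_smul, dt_sub_smul]; linarith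
    · rw [h, dt_sub_smul, dt_sub_smul]; linarith
  choose c hc1 hc2 using exists_thr (P.erase v) t
  have hcard : (P.erase v).card = P.card - 1 := Finset.card_erase_of_mem hv
  have hpos := Finset.card_pos.mpr hne
  refine ⟨v, w0, w1, ini (P.erase v) t, c, hv, hw0p, hcr, ?_, ?_, ?_, ?_, ?_, ?_⟩
  · intro m q hq
    exact ((mem_ini _ t).mp hq).1
  · intro m m' hm q hq
    obtain ⟨h1, h2⟩ := (mem_ini _ t).mp hq
    exact (mem_ini _ t).mpr ⟨h1, h2.trans_le hm⟩
  · intro m hm
    exact ini_card _ t hinj (by omega)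
  · ext q
    rw [mem_ini]
    constructor
    · exact fun h => h.1
    · intro h
      refine ⟨h, ?_⟩
      have := rk_lt (P.erase v) t h
      omega
  · intro m q hq
    have h0 := hw0p q ((mem_ini _ t).mp hq).1
    have h1 := hc1 m q hq
    have h2 := ht' q ((mem_ini _ t).mp hq).1
    rw [dt_sub_smul]
    have h3 := mul_lt_mul_of_pos_right h1 h0
    linarith
  · intro m q hq hq'
    have h0 := hw0p q hq
    have h1 := hc2 m q hq hq'
    have h2 := ht' q hq
    rw [dt_sub_smul]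
    have h3 := mul_lt_mul_of_pos_right h1 h0
    linarith

namespace HullOrd

variable {P : Finset (ℝ × ℝ)} {v w0 w1 : ℝ × ℝ} {I : ℕ → Finset (ℝ × ℝ)} {c : ℕ → ℝ}

theorem notMem (h : HullOrd P v w0 w1 I c) (m : ℕ) : v ∉ I m :=
  fun hv => (Finset.mem_erase.mp (h.sub m hv)).1 rfl

theorem subP (h : HullOrd P v w0 w1 I c) (m : ℕ) : I m ⊆ P :=
  (h.sub m).trans (Finset.erase_subset _ _)

theorem zero (h : HullOrd P v w0 w1 I c) : I 0 = ∅ :=
  Finset.card_eq_zero.mp (h.card 0 (Finset.card_pos.mpr ⟨v, h.hv⟩))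

theorem card_erase (h : HullOrd P v w0 w1 I c) : (P.erase v).card = P.card - 1 :=
  Finset.card_erase_of_mem h.hv

theorem card_compl (h : HullOrd P v w0 w1 I c) {m : ℕ} (hm : m < P.card) :
    (P.erase v \ I m).card + m + 1 = P.card := by
  classical
  have h1 := Finset.card_sdiff_add_card_eq_card (h.sub m)
  have h2 := h.card m hm
  have h3 := h.card_erase
  omega

theorem card_diff (h : HullOrd P v w0 w1 I c) {m m' : ℕ} (hm : m' ≤ m) (hm' : m < P.card) :
    (I m \ I m').card + m' = m := by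
  classical
  have h1 := Finset.card_sdiff_add_card_eq_card (h.mono m' m hm)
  have h2 := h.card m hm'
  have h3 := h.card m' (by omega)
  omega

theorem low' (h : HullOrd P v w0 w1 I c) (m : ℕ) :
    ∀ q ∈ I m, dt (w1 - c m • w0) (q - v) ≤ 0 := fun q hq => (h.low m q hq).le

theorem up' (h : HullOrd P v w0 w1 I c) (m : ℕ) :
    ∀ q ∈ P.erase v \ I m, 0 < dt (w1 - c m • w0) (q - v) :=
  fun q hq => h.up m q (Finset.mem_sdiff.mp hq).1 (Finset.mem_sdiff.mp hq).2

/-- The initial segments are half-planes. -/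
theorem hp (h : HullOrd P v w0 w1 I c) (m : ℕ) : IsHP79 P (I m) := by
  classical
  refine ⟨h.subP m, w1 - c m • w0, ?_⟩
  intro x hx y hy hyI
  have h1 := h.low m x hx
  rw [dt_sub] at h1
  by_cases hyv : y = v
  · rw [hyv]; linarith
  · have h2 := h.up m y (Finset.mem_erase.mpr ⟨hyv, hy⟩) hyI
    rw [dt_sub] at h2
    linarith

/-- The final segments are half-planes. -/
theorem hp_compl (h : HullOrd P v w0 w1 I c) (m : ℕ) : IsHP79 P (P.erase v \ I m) := by
  classical
  refine ⟨Finset.sdiff_subset.trans (Finset.erase_subset _ _), -(w1 - c m • w0), ?_⟩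
  intro x hx y hy hyI
  have h1 := h.up' m x hx
  rw [dt_sub] at h1
  rw [dt_neg_left, dt_neg_left]
  by_cases hyv : y = v
  · rw [hyv]; linarith
  · have h3 : y ∈ I m := by
      by_contra hcon
      exact hyI (Finset.mem_sdiff.mpr ⟨Finset.mem_erase.mpr ⟨hyv, hy⟩, hcon⟩)
    have h2 := h.low m y h3
    rw [dt_sub] at h2
    linarith

/-- The initial segments with v are half-planes. -/
theorem hp_insert (h : HullOrd P v w0 w1 I c) (m : ℕ) : IsHP79 P (insert v (I m)) := by
  classical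
  have h1 := (h.hp_compl m).compl
  have h2 : P \ (P.erase v \ I m) = insert v (I m) := by
    ext q
    rw [Finset.mem_sdiff, Finset.mem_sdiff, Finset.mem_erase, Finset.mem_insert]
    constructor
    · rintro ⟨h3, h4⟩
      by_contra hcon
      push Not at hcon
      exact h4 ⟨⟨hcon.1, h3⟩, hcon.2⟩
    · rintro (rfl | h3)
      · exact ⟨h.hv, fun h4 => h4.1.1 rfl⟩
      · exact ⟨h.subP m h3, fun h4 => h4.2 h3⟩
  rwa [h2] at h1

theorem cr_ne (h : HullOrd P v w0 w1 I c) (m : ℕ) : cr (w1 - c m • w0) (-w0) ≠ 0 := by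
  intro h0
  apply h.cr0
  simp only [cr, Prod.fst_sub, Prod.snd_sub, Prod.smul_fst, Prod.smul_snd, smul_eq_mul,
    Prod.fst_neg, Prod.snd_neg] at h0 ⊢
  linarith

/-- The points after I m and v are above Y. -/
theorem sep (h : HullOrd P v w0 w1 I c) {m : ℕ} {V Y : Finset (ℝ × ℝ)} (hY : Y ⊆ I m)
    (hV : V ⊆ P.erase v) (hd : Disjoint V (I m)) :
    ∀ p ∈ insert v V, ∀ q ∈ Y, dt (w1 - c m • w0) q < dt (w1 - c m • w0) p := by
  classical
  intro p hp q hq
  have h1 := h.low m q (hY hq)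
  rw [dt_sub] at h1
  rcases Finset.mem_insert.mp hp with rfl | hp
  · linarith
  · have h2 := h.up m p (hV hp) (fun h' => Finset.disjoint_left.mp hd hp h')
    rw [dt_sub] at h2
    linarith

/-- The admissible start at v. -/
theorem br (h : HullOrd P v w0 w1 I c) {m : ℕ} {V Y : Finset (ℝ × ℝ)} (hY : Y ⊆ I m)
    (hV : V ⊆ P.erase v) (hd : Disjoint V (I m)) (hne : Y.Nonempty) :
    ∃ q0 s0, Br (w1 - c m • w0) (-w0) (insert v V) Y v q0 s0 ∧
      ∀ x ∈ V, dt (-w0 - s0 • (w1 - c m • w0)) x < dt (-w0 - s0 • (w1 - c m • w0)) v := by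
  classical
  obtain ⟨q0, hq0, hmin⟩ := Finset.exists_min_image Y
    (fun q => dt (w1 - c m • w0) (q - v) / dt w0 (q - v)) hne
  obtain ⟨a, ha⟩ : ∃ a, a = w1 - c m • w0 := ⟨_, rfl⟩
  rw [← ha]
  have hlow : ∀ q ∈ Y, dt a (q - v) < 0 := fun q hq => by rw [ha]; exact h.low m q (hY hq)
  have hup : ∀ q ∈ V, 0 < dt a (q - v) := fun q hq => by
    rw [ha]; exact h.up m q (hV hq) (fun h' => Finset.disjoint_left.mp hd hq h')
  have hpY : ∀ q ∈ Y, 0 < dt w0 (q - v) := fun q hq => h.pos q (h.sub m (hY hq))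
  have hpV : ∀ q ∈ V, 0 < dt w0 (q - v) := fun q hq => h.pos q (hV hq)
  have hmin' : ∀ q ∈ Y, dt a (q0 - v) * dt w0 (q - v) ≤ dt a (q - v) * dt w0 (q0 - v) := by
    intro q hq
    have h1 := hmin q hq
    rw [← ha] at h1
    exact (div_le_div_iff₀ (hpY q0 hq0) (hpY q hq)).mp h1
  have hA := hlow q0 hq0
  have hW := hpY q0 hq0
  obtain ⟨s, hs⟩ : ∃ s, s = -(dt w0 (q0 - v)) / dt a (q0 - v) := ⟨_, rfl⟩
  have hs1 : s * dt a (q0 - v) = -(dt w0 (q0 - v)) := by
    rw [hs]; exact div_mul_cancel₀ _ hA.ne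
  have hs0 : 0 < s := by
    rw [hs]; exact div_pos_of_neg_of_neg (by linarith) hA
  have key : ∀ q, dt (-w0 - s • a) (q - v) = -(dt w0 (q - v)) - s * dt a (q - v) := by
    intro q
    rw [dt_sub_smul, dt_neg_left]
  have kY : ∀ q ∈ Y, dt (-w0 - s • a) (q - v) ≤ 0 := by
    intro q hq
    rw [key]
    have h1 := mul_le_mul_of_nonneg_left (hmin' q hq) hs0.le
    have h2 : s * (dt a (q0 - v) * dt w0 (q - v)) = -(dt w0 (q0 - v) * dt w0 (q - v)) := by
      rw [← mul_assoc, hs1]; ring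
    rw [h2] at h1
    have h3 : 0 ≤ dt w0 (q0 - v) * (dt w0 (q - v) + s * dt a (q - v)) := by nlinarith
    have h4 : 0 ≤ dt w0 (q - v) + s * dt a (q - v) := by
      by_contra hcon
      push Not at hcon
      have := mul_neg_of_pos_of_neg hW hcon
      linarith
    linarith
  have kV : ∀ q ∈ V, dt (-w0 - s • a) (q - v) < 0 := by
    intro q hq
    rw [key]
    have h1 := mul_pos hs0 (hup q hq)
    have h2 := hpV q hq
    linarith
  have k0 : dt (-w0 - s • a) (q0 - v) = 0 := by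
    rw [key]; linarith
  refine ⟨q0, s, ⟨Finset.mem_insert_self _ _, hq0, ?_, ?_, ?_⟩, ?_⟩
  · rw [dt_sub] at k0; linarith
  · intro q hq
    rcases Finset.mem_insert.mp hq with rfl | hq
    · exact le_refl _
    · have := kV q hq
      rw [dt_sub] at this
      linarith
  · intro q hq
    have := kY q hq
    rw [dt_sub] at this
    linarith
  · intro q hq
    have := kV q hq
    rw [dt_sub] at this
    linarith

end HullOrd

end Pool.Agent.AltFew
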