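import Pool.Agent.AltFew.Step47
import Pool.Agent.AltFew.Hull84
import Pool.Agent.AltFew.Defs55

/-! One step of the recursion along the angular order at a vertex of the hull. -/

namespace Pool.Agent.AltFew

open Pool.Agent.AltPath Pool.Agent.AltHP Pool.Agent.HPD79 Pool.Agent.AltALL71

theorem Cb_mono47 {N N' l : ℕ} (h : N ≤ N') : Cb N l ≤ Cb N' l := by
  unfold Cb
  exact Finset.sum_le_sum (fun i _ => Nat.choose_le_choose i h)

theorem bad1_empty47 (c : ℝ × ℝ) (V : Finset (ℝ × ℝ)) (k : ℕ) :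
    (Bad1 c V ∅ k).card ≤ Cb V.card (3 * k + 1) := by
  classical
  have h1 : Bad1 c V ∅ k ⊆ V.powersetCard k := by
    intro A hA
    obtain ⟨h1, h2, -⟩ := Finset.mem_filter.mp hA
    rw [Finset.mem_powersetCard]
    refine ⟨Finset.mem_powerset.mp h1, ?_⟩
    rw [h2, Finset.card_empty, Nat.zero_add]
  refine (Finset.card_le_card h1).trans ?_
  rw [Finset.card_powersetCard]
  exact choose_le_Cb (by omega)

variable {P : Finset (ℝ × ℝ)} {v w0 w1 : ℝ × ℝ} {I : ℕ → Finset (ℝ × ℝ)} {c : ℕ → ℝ}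

/-- The count of the continuations in the angular order. -/
theorem bad1_hull47 (H : HullOrd P v w0 w1 I c) (hgp : GP P) {m' : ℕ} {V Y : Finset (ℝ × ℝ)}
    (hY : Y ⊆ I m') (hV : V ⊆ P.erase v) (hd : Disjoint V (I m')) (k : ℕ) :
    (Bad1 v V Y k).card ≤ Cb (V.card + Y.card) (3 * k + 1) := by
  classical
  rcases Y.eq_empty_or_nonempty with rfl | hne
  · exact bad1_empty47 v V k
  · obtain ⟨q0, s0, hbr, -⟩ := H.br hY hV hd hne
    refine stm1 hgp (H.cr_ne m') _ V Y v q0 s0 k le_rfl ?_ ?_ ?_ (H.sep hY hV hd) hbr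
    · exact Finset.insert_subset H.hv (hV.trans (Finset.erase_subset _ _))
    · exact hY.trans ((H.sub m').trans (Finset.erase_subset _ _))
    · exact fun h => (Finset.mem_erase.mp (hV h)).1 rfl

open scoped Classical in
/-- One step of the recursion. -/
theorem one_step47 (H : HullOrd P v w0 w1 I c) (hgp : GP P) {n g K s m m' : ℕ}
    (hP : P.card = 2 * n) (hm : m < 2 * n) (hm1 : 2 * m' + 2 * s ≤ m)
    (hm2 : m ≤ 2 * m' + 2 * s + 1) (hsK : 3 * K + g ≤ s)
    (F : Finset (Finset (ℝ × ℝ))) (hFP : ∀ R ∈ F, R ⊆ P) (hFn : ∀ R ∈ F, R.card = n)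
    (hFv : ∀ R ∈ F, v ∈ R) (hFG : ∀ R ∈ F, ∀ k, HasPath R (P \ R) k → k < n + g)
    (hFK : ∀ R ∈ F, ∀ H, IsHP79 P H → |Dc79 R H| ≤ K) :
    (F.image (fun R => R ∩ I m)).card ≤
      (∑ k ∈ Finset.range (s + 2 * K + 2), Cb (2 * n) (3 * k + 1)) *
        (F.image (fun R => R ∩ I m')).card := by
  have hmm : m' ≤ m := by omega
  have hsub := H.mono m' m hmm
  have c1 : (I m).card = m := H.card m (by omega)
  have c2 : (I m').card = m' := H.card m' (by omega)
  have hvI : v ∉ I m := fun h => (Finset.mem_erase.mp (H.sub m h)).1 rfl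
  refine rec47 hsub (fun R0 => ?_)
  refine step47a (w := w1 - c m • w0) hgp hP H.hv hsub ((H.sub m).trans (Finset.erase_subset _ _))
    hvI (H.hp m') (H.hp m) (H.hp_insert m) (fun q hq => (H.low m q hq).le) ?_ hsK
    (by rw [c1, c2]; omega) (by rw [c1, c2]; omega) F hFP hFn hFv hFG hFK R0
    (fun k => Cb (2 * n) (3 * k + 1)) ?_
  · intro q hq hqv hqI
    exact H.up m q (Finset.mem_erase.mpr ⟨hqv, hq⟩) hqI
  · intro k
    have h1 := bad1_hull47 H hgp (m' := m') (V := I m \ I m') (Y := I m' \ R0)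
      Finset.sdiff_subset (Finset.sdiff_subset.trans (H.sub m)) Finset.sdiff_disjoint k
    refine le_trans h1 (Cb_mono47 ?_)
    have h2 := Finset.card_le_card (Finset.sdiff_subset (s := I m') (t := R0))
    rw [Finset.card_sdiff_of_subset hsub, c1, c2]
    rw [c2] at h2
    omega

open scoped Classical in
/-- One step of the recursion, for the family of colourings without long paths. -/
theorem step47 {n g K s : ℕ} (hgp : GP P) (hP : P.card = 2 * n) (h : HullOrd P v w0 w1 I c)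
    (F : Finset (Finset (ℝ × ℝ)))
    (hF : ∀ R ∈ F, R ⊆ P ∧ R.card = n ∧ v ∈ R ∧ ¬ HasPath R (P \ R) (n + g))
    (hK : ∀ R ∈ F, ∀ H, IsHP79 P H → |Dc79 R H| ≤ (K : ℤ)) (hs : s = 3 * K + g) {m m' : ℕ}
    (hm : m < 2 * n) (h1 : 2 * (m' + s) ≤ m) (h2 : m ≤ 2 * (m' + s) + 1) :
    (F.image (fun R => R ∩ I m)).card ≤ Phi n s K * (F.image (fun R => R ∩ I m')).card := by
  refine one_step47 h hgp (g := g) hP hm (by omega) (by omega) (by omega) F
    (fun R hR => (hF R hR).1) (fun R hR => (hF R hR).2.1) (fun R hR => (hF R hR).2.2.1) ?_ hK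
  intro R hR k hk
  by_contra hcon
  exact (hF R hR).2.2.2 (HasPath.mono hk (by omega))

end Pool.Agent.AltFew
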