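import Pool.Agent.AltALL.DetourM71

/-! The zigzag with detours decodes the colours of the upper points: the number of sets of reds
above a line for which the zigzag cannot use up all reds is at most a partial binomial sum. -/

namespace Pool.Agent.AltFew

open Pool.Agent.AltPath Pool.Agent.AltHP Pool.Agent.AltALL71

/-- Partial sums of binomial coefficients. -/
def Cb (N l : ℕ) : ℕ := ∑ i ∈ Finset.range (l + 1), N.choose i

theorem Cb_mono {N l l' : ℕ} (h : l ≤ l') : Cb N l ≤ Cb N l' := by
  unfold Cb
  exact Finset.sum_le_sum_of_subset (Finset.range_mono (by omega))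

theorem Cb_succ (N l : ℕ) : Cb (N + 1) (l + 1) = Cb N l + Cb N (l + 1) := by
  unfold Cb
  rw [Finset.sum_range_succ' _ (l + 1), Finset.sum_range_succ' (fun i => N.choose i) (l + 1)]
  simp only [Nat.choose_succ_succ, Nat.choose_zero_right, Finset.sum_add_distrib]
  ring

theorem choose_le_Cb {N i l : ℕ} (h : i ≤ l) : N.choose i ≤ Cb N l := by
  unfold Cb
  exact Finset.single_le_sum (f := fun i => N.choose i) (fun _ _ => Nat.zero_le _)
    (Finset.mem_range.mpr (by omega))

/-- Reveal whether p belongs to the set, and delete it. -/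
theorem split_erase {α : Type*} [DecidableEq α] {F F1 F2 : Finset (Finset α)} (p : α)
    (h1 : ∀ A ∈ F, p ∈ A → A.erase p ∈ F1) (h2 : ∀ A ∈ F, p ∉ A → A ∈ F2) :
    F.card ≤ F1.card + F2.card := by
  classical
  have e1 := Finset.card_filter_add_card_filter_not (s := F) (fun A => p ∈ A)
  have e2 : (F.filter (fun A => p ∈ A)).card ≤ F1.card := by
    apply Finset.card_le_card_of_injOn (fun A => A.erase p)
    · intro A hA
      obtain ⟨hA1, hA2⟩ := Finset.mem_filter.mp (Finset.mem_coe.mp hA)
      exact Finset.mem_coe.mpr (h1 A hA1 hA2)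
    · intro A hA A' hA' h
      have hp := (Finset.mem_filter.mp (Finset.mem_coe.mp hA)).2
      have hp' := (Finset.mem_filter.mp (Finset.mem_coe.mp hA')).2
      have h3 : A.erase p = A'.erase p := h
      rw [← Finset.insert_erase hp, ← Finset.insert_erase hp', h3]
  have e3 : (F.filter (fun A => ¬ p ∈ A)).card ≤ F2.card := by
    apply Finset.card_le_card
    intro A hA
    obtain ⟨hA1, hA2⟩ := Finset.mem_filter.mp hA
    exact h2 A hA1 hA2
  omega

/-- Reveal whether p belongs to the set. -/
theorem split_keep {α : Type*} [DecidableEq α] {F F1 F2 : Finset (Finset α)} (p : α)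
    (h1 : ∀ A ∈ F, p ∈ A → A ∈ F1) (h2 : ∀ A ∈ F, p ∉ A → A ∈ F2) :
    F.card ≤ F1.card + F2.card := by
  classical
  have e1 := Finset.card_filter_add_card_filter_not (s := F) (fun A => p ∈ A)
  have e2 : (F.filter (fun A => p ∈ A)).card ≤ F1.card := by
    apply Finset.card_le_card
    intro A hA
    obtain ⟨hA1, hA2⟩ := Finset.mem_filter.mp hA
    exact h1 A hA1 hA2
  have e3 : (F.filter (fun A => ¬ p ∈ A)).card ≤ F2.card := by
    apply Finset.card_le_card
    intro A hA
    obtain ⟨hA1, hA2⟩ := Finset.mem_filter.mp hA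
    exact h2 A hA1 hA2
  omega

open scoped Classical in
/-- State 1: the last point c of the path is above. -/
noncomputable def Bad1 (c : ℝ × ℝ) (V Y : Finset (ℝ × ℝ)) (k : ℕ) : Finset (Finset (ℝ × ℝ)) :=
  V.powerset.filter (fun A => A.card = Y.card + k ∧
    ¬ Cont c A Y (V \ A) (2 * (Y.card + k)) false)

open scoped Classical in
/-- State 1, with a ghost x beyond the bridge. -/
noncomputable def Bad1' (c x : ℝ × ℝ) (V Y : Finset (ℝ × ℝ)) (k : ℕ) :
    Finset (Finset (ℝ × ℝ)) :=
  V.powerset.filter (fun A => A.card = Y.card + k ∧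
    ¬ Cont c A Y (insert x (V \ A)) (2 * (Y.card + k)) false)

open scoped Classical in
/-- State 2: the last point c of the path is below. -/
noncomputable def Bad2 (c p0 : ℝ × ℝ) (V Y : Finset (ℝ × ℝ)) (k : ℕ) :
    Finset (Finset (ℝ × ℝ)) :=
  V.powerset.filter (fun A => p0 ∈ A ∧ A.card = Y.card + 1 + k ∧
    ¬ Cont c A Y (V \ A) (2 * (Y.card + k) + 1) true)

open scoped Classical in
/-- State 2, with a ghost x beyond the bridge. -/
noncomputable def Bad2' (c p0 x : ℝ × ℝ) (V Y : Finset (ℝ × ℝ)) (k : ℕ) :
    Finset (Finset (ℝ × ℝ)) :=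
  V.powerset.filter (fun A => p0 ∈ A ∧ A.card = Y.card + 1 + k ∧
    ¬ Cont c A Y (insert x (V \ A)) (2 * (Y.card + k) + 1) true)

open scoped Classical in
/-- State 2, with a ghost x beyond the bridge and a red point r next to it. -/
noncomputable def Bad2'' (c r x : ℝ × ℝ) (V Y : Finset (ℝ × ℝ)) (k : ℕ) :
    Finset (Finset (ℝ × ℝ)) :=
  V.powerset.filter (fun A => A.card = Y.card + k ∧
    ¬ Cont c (insert r A) Y (insert x (V \ A)) (2 * (Y.card + k) + 1) true)

theorem Br.sub {a a' : ℝ × ℝ} {X X' Y : Finset (ℝ × ℝ)} {c d : ℝ × ℝ} {s : ℝ}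
    (h : Br a a' X Y c d s) (hX : X' ⊆ X) (hc : c ∈ X') : Br a a' X' Y c d s :=
  ⟨hc, h.2.1, h.2.2.1, fun q hq => h.2.2.2.1 q (hX hq), h.2.2.2.2⟩

theorem erase_sdiff_erase {α : Type*} [DecidableEq α] {V A : Finset α} {p : α} (hp : p ∈ A) :
    V.erase p \ A.erase p = V \ A := by
  ext q
  simp only [Finset.mem_sdiff, Finset.mem_erase, not_and]
  constructor
  · rintro ⟨⟨h1, h2⟩, h3⟩
    exact ⟨h2, h3 h1⟩
  · rintro ⟨h1, h2⟩
    exact ⟨⟨fun h => h2 (h ▸ hp), h1⟩, fun _ => h2⟩

/-- The statement of state 1 for all pairs with at most m points. -/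
def Stm1 (S : Finset (ℝ × ℝ)) (a a' : ℝ × ℝ) (m : ℕ) : Prop :=
  ∀ (V Y : Finset (ℝ × ℝ)) (c q0 : ℝ × ℝ) (s0 : ℝ) (k : ℕ), V.card + Y.card ≤ m →
    insert c V ⊆ S → Y ⊆ S → c ∉ V → (∀ p ∈ insert c V, ∀ q ∈ Y, dt a q < dt a p) →
    Br a a' (insert c V) Y c q0 s0 → (Bad1 c V Y k).card ≤ Cb (V.card + Y.card) (3 * k + 1)

/-- State 1', by induction on the number of upper points. -/
theorem bad1' {S : Finset (ℝ × ℝ)} (hgp : GP S) {a a' : ℝ × ℝ} (ha : cr a a' ≠ 0)
    {Y : Finset (ℝ × ℝ)} {c x q0 qx : ℝ × ℝ} {s0 sx : ℝ} {k : ℕ} (hYS : Y ⊆ S) (hcS : c ∈ S)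
    (hxS : x ∈ S) (hsc : ∀ q ∈ Y, dt a q < dt a c) (hsx : ∀ q ∈ Y, dt a q < dt a x)
    (hx0 : dt (a' - s0 • a) x < dt (a' - s0 • a) c) : ∀ (m : ℕ) (V : Finset (ℝ × ℝ)), V.card = m →
    Stm1 S a a' (V.card + Y.card) → V ⊆ S → c ∉ V → x ∉ V →
    (∀ p ∈ V, ∀ q ∈ Y, dt a q < dt a p) → Br a a' (insert c V) Y c q0 s0 →
    Br a a' (insert x V) Y x qx sx →
    (Bad1' c x V Y (k + 1)).card ≤ Cb (V.card + Y.card) (3 * k + 3) := by
  classical
  intro m
  induction m with
  | zero =>
    intro V hm _ _ _ _ _ _ _
    have hV := Finset.card_eq_zero.mp hm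
    subst hV
    have : Bad1' c x ∅ Y (k + 1) = ∅ := by
      rw [Finset.eq_empty_iff_forall_notMem]
      intro A hA
      obtain ⟨h1, h2, -⟩ := Finset.mem_filter.mp hA
      rw [Finset.mem_powerset, Finset.subset_empty] at h1
      rw [h1, Finset.card_empty] at h2
      omega
    rw [this]; simp
  | succ m ih =>
    intro V hm hSt hVS hcV hxV hsV hbc hbx
    have hVne : V.Nonempty := by
      rw [← Finset.card_pos]; omega
    have hYne : Y.Nonempty := ⟨q0, hbc.2.1⟩
    obtain ⟨p, q, s, hbr⟩ := exists_bridge a a' hVne hYne hsV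
    have hp : p ∈ V := hbr.1
    have hq : q ∈ Y := hbr.2.1
    have hVc : (V.erase p).card = m := by
      rw [Finset.card_erase_of_mem hp, hm]; rfl
    have hpc : c ∉ V.erase p := fun h => hcV (Finset.mem_erase.mp h).2
    have hpx : x ∉ V.erase p := fun h => hxV (Finset.mem_erase.mp h).2
    -- the two branches
    have hS1 : (Bad1 p (V.erase p) Y k).card ≤ Cb (m + Y.card) (3 * k + 1) := by
      have := hSt (V.erase p) Y p q s k (by omega)
        (by rw [Finset.insert_erase hp]; exact hVS) hYS (Finset.notMem_erase p V)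
        (by rw [Finset.insert_erase hp]; exact hsV) (by rw [Finset.insert_erase hp]; exact hbr)
      rwa [hVc] at this
    have hS2 : (Bad1' c x (V.erase p) Y (k + 1)).card ≤ Cb (m + Y.card) (3 * k + 3) := by
      have := ih (V.erase p) hVc
        (fun V' Y' c' q' s' k' h => hSt V' Y' c' q' s' k' (by omega))
        ((Finset.erase_subset _ _).trans hVS) hpc hpx
        (fun z hz => hsV z (Finset.mem_erase.mp hz).2)
        (Br.sub hbc (Finset.insert_subset_insert _ (Finset.erase_subset _ _))
          (Finset.mem_insert_self _ _))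
        (Br.sub hbx (Finset.insert_subset_insert _ (Finset.erase_subset _ _))
          (Finset.mem_insert_self _ _))
      rwa [hVc] at this
    have hsplit : (Bad1' c x V Y (k + 1)).card ≤
        (Bad1 p (V.erase p) Y k).card + (Bad1' c x (V.erase p) Y (k + 1)).card := by
      apply split_erase p
      · intro A hA hpA
        obtain ⟨h1, h2, h3⟩ := Finset.mem_filter.mp hA
        rw [Finset.mem_powerset] at h1
        refine Finset.mem_filter.mpr ⟨?_, ?_, ?_⟩
        · rw [Finset.mem_powerset]
          exact Finset.erase_subset_erase p h1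
        · rw [Finset.card_erase_of_mem hpA]; omega
        · intro hcont
          apply h3
          rw [erase_sdiff_erase hpA] at hcont
          have hAS : A ⊆ S := h1.trans hVS
          have hGV : V \ A ⊆ V := Finset.sdiff_subset
          have hbA : Br a a' A Y p q s := Br.sub hbr h1 hpA
          have hbcA : Br a a' (insert c A) Y c q0 s0 :=
            Br.sub hbc (Finset.insert_subset_insert _ h1) (Finset.mem_insert_self _ _)
          have hbxA : Br a a' (insert x A) Y x qx sx :=
            Br.sub hbx (Finset.insert_subset_insert _ h1) (Finset.mem_insert_self _ _)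
          have hxA : x ∉ A := fun h => hxV (h1 h)
          have hsAG : ∀ z ∈ A ∪ (V \ A), ∀ y ∈ Y, dt a y < dt a z := by
            intro z hz
            rcases Finset.mem_union.mp hz with hz | hz
            · exact hsV z (h1 hz)
            · exact hsV z (hGV hz)
          have hG : ∀ y ∈ V \ A, dt (a' - s • a) y < dt (a' - s • a) p := by
            intro y hy
            obtain ⟨hy1, hy2⟩ := Finset.mem_sdiff.mp hy
            refine lt_of_le_of_ne (hbr.2.2.2.1 y hy1) ?_
            intro heq
            exact ghost_line hgp ha (hVS hp) (hYS hq) (hVS hy1) (hsV p hp q hq)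
              (fun h => hy2 (h ▸ hpA)) (hsV y hy1 q hq) hbr.2.2.1 heq
          have hx1 : dt (a' - s • a) q < dt (a' - s • a) x :=
            beyond_up hgp ha (Finset.insert_subset hxS hAS) hYS
              (by
                intro z hz y hy
                rcases Finset.mem_insert.mp hz with rfl | hz
                · exact hsx y hy
                · exact hsV z (h1 hz) y hy) hxA hbxA hbA
          have hv1 := vis_up hgp ha hAS hYS (hGV.trans hVS) hsAG hbA hG hx1
          have hpG : p ∉ V \ A := fun h => (Finset.mem_sdiff.mp h).2 hpA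
          have hpY : p ∉ Y := fun h => lt_irrefl _ (hsV p hp p h)
          have h2' := cont_up hpA hpG hpY hv1 hcont
          have hv2 := astep hgp ha hYS hxS hsc hsx hsAG hbcA hx0 hbA hx1 hG
          have hxY : x ∉ Y := fun h => lt_irrefl _ (hsx x h)
          have hxG : x ∉ V \ A := fun h => hxV (hGV h)
          have h3' := cont_ghost (G := insert x (V \ A)) (Finset.subset_insert _ _)
            (Finset.mem_insert_self _ _) hxG hxA hxY hv2 h2'
          have e : 2 * (Y.card + (k + 1)) = 2 * (Y.card + k) + 1 + 1 := by ring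
          rw [e]; exact h3'
      · intro A hA hpA
        obtain ⟨h1, h2, h3⟩ := Finset.mem_filter.mp hA
        rw [Finset.mem_powerset] at h1
        refine Finset.mem_filter.mpr ⟨?_, h2, ?_⟩
        · rw [Finset.mem_powerset]
          exact fun z hz => Finset.mem_erase.mpr ⟨fun h => hpA (h ▸ hz), h1 hz⟩
        · intro hcont
          exact h3 (hcont.mono (Finset.insert_subset_insert _
            (Finset.sdiff_subset_sdiff (Finset.erase_subset _ _) (Finset.Subset.refl _))))
    have e1 : V.card + Y.card = m + Y.card + 1 := by omega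
    have e2 : Cb (m + Y.card + 1) (3 * k + 3) =
        Cb (m + Y.card) (3 * k + 2) + Cb (m + Y.card) (3 * k + 3) := Cb_succ _ _
    rw [e1, e2]
    have := Cb_mono (N := m + Y.card) (show 3 * k + 1 ≤ 3 * k + 2 by omega)
    omega

/-- State 2'', by induction on the number of upper points. -/
theorem bad2'' {S : Finset (ℝ × ℝ)} (hgp : GP S) {a a' : ℝ × ℝ} (ha : cr a a' ≠ 0)
    {Y : Finset (ℝ × ℝ)} {c r x qx : ℝ × ℝ} {sx t : ℝ} {k : ℕ} (hYS : Y ⊆ S)
    (hYne : Y.Nonempty) (hrS : r ∈ S)
    (hxS : x ∈ S) (hsr : ∀ q ∈ Y, dt a q < dt a r) (hsx : ∀ q ∈ Y, dt a q < dt a x)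
    (hrx : r ≠ x) (hreq : dt (a' - t • a) r = dt (a' - t • a) x)
    (hrY : ∀ z ∈ Y, dt (a' - t • a) z < dt (a' - t • a) x)
    (hrc : dt (a' - t • a) x < dt (a' - t • a) c) : ∀ (m : ℕ) (V : Finset (ℝ × ℝ)), V.card = m →
    Stm1 S a a' (V.card + Y.card) → V ⊆ S → r ∉ V → x ∉ V →
    (∀ p ∈ V, ∀ q ∈ Y, dt a q < dt a p) →
    (∀ z ∈ V, dt (a' - t • a) z < dt (a' - t • a) x) →
    Br a a' (insert x (insert r V)) Y x qx sx →
    (Bad2'' c r x V Y (k + 1)).card ≤ Cb (V.card + Y.card) (3 * k + 2) := by
  classical
  intro m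
  induction m with
  | zero =>
    intro V hm _ _ _ _ _ _ _
    have hV := Finset.card_eq_zero.mp hm
    subst hV
    have : Bad2'' c r x ∅ Y (k + 1) = ∅ := by
      rw [Finset.eq_empty_iff_forall_notMem]
      intro A hA
      obtain ⟨h1, h2, -⟩ := Finset.mem_filter.mp hA
      rw [Finset.mem_powerset, Finset.subset_empty] at h1
      rw [h1, Finset.card_empty] at h2
      omega
    rw [this]; simp
  | succ m ih =>
    intro V hm hSt hVS hrV hxV hsV hVt hbx
    have hVne : V.Nonempty := by
      rw [← Finset.card_pos]; omega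
    obtain ⟨p, q, s, hbr⟩ := exists_bridge a a' hVne hYne hsV
    have hp : p ∈ V := hbr.1
    have hq : q ∈ Y := hbr.2.1
    have hVc : (V.erase p).card = m := by
      rw [Finset.card_erase_of_mem hp, hm]; rfl
    have hpr : r ∉ V.erase p := fun h => hrV (Finset.mem_erase.mp h).2
    have hpx : x ∉ V.erase p := fun h => hxV (Finset.mem_erase.mp h).2
    have hS1 : (Bad1 p (V.erase p) Y k).card ≤ Cb (m + Y.card) (3 * k + 1) := by
      have := hSt (V.erase p) Y p q s k (by omega)
        (by rw [Finset.insert_erase hp]; exact hVS) hYS (Finset.notMem_erase p V)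
        (by rw [Finset.insert_erase hp]; exact hsV) (by rw [Finset.insert_erase hp]; exact hbr)
      rwa [hVc] at this
    have hS2 : (Bad2'' c r x (V.erase p) Y (k + 1)).card ≤ Cb (m + Y.card) (3 * k + 2) := by
      have := ih (V.erase p) hVc
        (fun V' Y' c' q' s' k' h => hSt V' Y' c' q' s' k' (by omega))
        ((Finset.erase_subset _ _).trans hVS) hpr hpx
        (fun z hz => hsV z (Finset.mem_erase.mp hz).2)
        (fun z hz => hVt z (Finset.mem_erase.mp hz).2)
        (Br.sub hbx (Finset.insert_subset_insert _ (Finset.insert_subset_insert _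
          (Finset.erase_subset _ _))) (Finset.mem_insert_self _ _))
      rwa [hVc] at this
    have hsplit : (Bad2'' c r x V Y (k + 1)).card ≤
        (Bad1 p (V.erase p) Y k).card + (Bad2'' c r x (V.erase p) Y (k + 1)).card := by
      apply split_erase p
      · intro A hA hpA
        obtain ⟨h1, h2, h3⟩ := Finset.mem_filter.mp hA
        rw [Finset.mem_powerset] at h1
        refine Finset.mem_filter.mpr ⟨?_, ?_, ?_⟩
        · rw [Finset.mem_powerset]
          exact Finset.erase_subset_erase p h1
        · rw [Finset.card_erase_of_mem hpA]; omega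
        · intro hcont
          apply h3
          rw [erase_sdiff_erase hpA] at hcont
          have hAS : A ⊆ S := h1.trans hVS
          have hGV : V \ A ⊆ V := Finset.sdiff_subset
          have hrA : r ∉ A := fun h => hrV (h1 h)
          have hxA : x ∉ A := fun h => hxV (h1 h)
          have hrG : r ∉ V \ A := fun h => hrV (hGV h)
          have hxG : x ∉ V \ A := fun h => hxV (hGV h)
          have hpY : p ∉ Y := fun h => lt_irrefl _ (hsV p hp p h)
          have hrY' : r ∉ Y := fun h => lt_irrefl _ (hsr r h)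
          have hxY : x ∉ Y := fun h => lt_irrefl _ (hsx x h)
          have hbA : Br a a' A Y p q s := Br.sub hbr h1 hpA
          have hsAG : ∀ z ∈ A ∪ (V \ A), ∀ y ∈ Y, dt a y < dt a z := by
            intro z hz
            rcases Finset.mem_union.mp hz with hz | hz
            · exact hsV z (h1 hz)
            · exact hsV z (hGV hz)
          have hG : ∀ y ∈ V \ A, dt (a' - s • a) y < dt (a' - s • a) p := by
            intro y hy
            obtain ⟨hy1, hy2⟩ := Finset.mem_sdiff.mp hy
            refine lt_of_le_of_ne (hbr.2.2.2.1 y hy1) ?_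
            intro heq
            exact ghost_line hgp ha (hVS hp) (hYS hq) (hVS hy1) (hsV p hp q hq)
              (fun h => hy2 (h ▸ hpA)) (hsV y hy1 q hq) hbr.2.2.1 heq
          -- the bridge of A with r
          have hsrA : ∀ z ∈ insert r A, ∀ y ∈ Y, dt a y < dt a z := by
            intro z hz y hy
            rcases Finset.mem_insert.mp hz with rfl | hz
            · exact hsr y hy
            · exact hsV z (h1 hz) y hy
          obtain ⟨p1, q1, s1, hbr1⟩ := exists_bridge a a' (X := insert r A) (Y := Y)
            ⟨r, Finset.mem_insert_self _ _⟩ hYne hsrA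
          have hbxA : Br a a' (insert x (insert r A)) Y x qx sx :=
            Br.sub hbx (Finset.insert_subset_insert _ (Finset.insert_subset_insert _ h1))
              (Finset.mem_insert_self _ _)
          have hx1 : dt (a' - s1 • a) q1 < dt (a' - s1 • a) x :=
            beyond_up hgp ha (Finset.insert_subset hxS (Finset.insert_subset hrS hAS)) hYS
              (by
                intro z hz y hy
                rcases Finset.mem_insert.mp hz with rfl | hz
                · exact hsx y hy
                · exact hsrA z hz y hy)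
              (by
                rw [Finset.mem_insert, not_or]
                exact ⟨hrx.symm, hxA⟩) hbxA hbr1
          have herase : (insert r A).erase r = A := Finset.erase_insert hrA
          have hmu : dt (a' - s • a) p < dt (a' - s • a) x :=
            mustep hsrA hsx hbr1 hx1
              (by
                intro z hz hzr
                exact hVt z (h1 ((Finset.mem_insert.mp hz).resolve_left hzr)))
              hrY (by rw [herase]; exact hbA)
          have hpG : p ∉ V \ A := fun h => (Finset.mem_sdiff.mp h).2 hpA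
          have hv3 := vis_up hgp ha hAS hYS (hGV.trans hVS) hsAG hbA hG (z := x)
            (by rw [hbA.2.2.1]; exact hmu)
          have k3 := cont_up hpA hpG hpY hv3 hcont
          have hE : Edge c (insert r A ∪ insert x (V \ A) ∪ Y) x r := by
            refine ⟨Finset.mem_union_left _ (Finset.mem_union_right _ (Finset.mem_insert_self _ _)),
              Finset.mem_union_left _ (Finset.mem_union_left _ (Finset.mem_insert_self _ _)), hrx,
              -(a' - t • a), ?_, ?_, ?_⟩
            · rw [dt_neg_left, dt_sub]; linarith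
            · intro z hz hzx hzr
              rw [dt_neg_left, dt_sub]
              rcases Finset.mem_union.mp hz with hz | hz
              · rcases Finset.mem_union.mp hz with hz | hz
                · linarith [hVt z (h1 ((Finset.mem_insert.mp hz).resolve_left hzr))]
                · linarith [hVt z (hGV ((Finset.mem_insert.mp hz).resolve_left hzx))]
              · linarith [hrY z hz]
            · rw [dt_neg_left, dt_sub]; linarith
          have hv1 : Vis c (insert r A ∪ insert x (V \ A) ∪ Y) r := hE.vis
          have hv2 : Vis r (insert x (A ∪ (V \ A) ∪ Y)) x := by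
            refine Vis.mono hE.symm'.vis_end ?_ (Finset.mem_insert_self _ _)
            intro z hz
            rw [Finset.mem_erase]
            rcases Finset.mem_insert.mp hz with rfl | hz
            · exact ⟨hrx.symm, Finset.mem_union_left _ (Finset.mem_union_right _
                (Finset.mem_insert_self _ _))⟩
            · rcases Finset.mem_union.mp hz with hz | hz
              · rcases Finset.mem_union.mp hz with hz | hz
                · exact ⟨fun h => hrA (h ▸ hz), Finset.mem_union_left _
                    (Finset.mem_union_left _ (Finset.mem_insert_of_mem hz))⟩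
                · exact ⟨fun h => hrG (h ▸ hz), Finset.mem_union_left _
                    (Finset.mem_union_right _ (Finset.mem_insert_of_mem hz))⟩
              · exact ⟨fun h => hrY' (h ▸ hz), Finset.mem_union_right _ hz⟩
          have k2 := cont_ghost (G := insert x (V \ A)) (G1 := V \ A) (Finset.subset_insert _ _)
            (Finset.mem_insert_self _ _) hxG hxA hxY hv2 k3
          have k1 := cont_up (A := insert r A) (Finset.mem_insert_self r A) (by
            rw [Finset.mem_insert, not_or]
            exact ⟨hrx, hrG⟩) hrY' hv1 (by rw [herase]; exact k2)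
          have e : 2 * (Y.card + (k + 1)) + 1 = 2 * (Y.card + k) + 1 + 1 + 1 := by ring
          rw [e]; exact k1
      · intro A hA hpA
        obtain ⟨h1, h2, h3⟩ := Finset.mem_filter.mp hA
        rw [Finset.mem_powerset] at h1
        refine Finset.mem_filter.mpr ⟨?_, h2, ?_⟩
        · rw [Finset.mem_powerset]
          exact fun z hz => Finset.mem_erase.mpr ⟨fun h => hpA (h ▸ hz), h1 hz⟩
        · intro hcont
          exact h3 (hcont.mono (Finset.insert_subset_insert _
            (Finset.sdiff_subset_sdiff (Finset.erase_subset _ _) (Finset.Subset.refl _))))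
    have e1 : V.card + Y.card = m + Y.card + 1 := by omega
    have e2 : Cb (m + Y.card + 1) (3 * k + 2) =
        Cb (m + Y.card) (3 * k + 1) + Cb (m + Y.card) (3 * k + 2) := Cb_succ _ _
    rw [e1, e2]
    omega

/-- State 2', by induction on the number of upper points. -/
theorem bad2' {S : Finset (ℝ × ℝ)} (hgp : GP S) {a a' : ℝ × ℝ} (ha : cr a a' ≠ 0)
    {Y : Finset (ℝ × ℝ)} {c p0 x qx : ℝ × ℝ} {s0 sx : ℝ} {k : ℕ} (hYS : insert c Y ⊆ S)
    (hYne : Y.Nonempty) (hcY : c ∉ Y) (hxS : x ∈ S) (hsx : ∀ q ∈ Y, dt a q < dt a x)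
    (hx0 : dt (a' - s0 • a) x < dt (a' - s0 • a) c) :
    ∀ (m : ℕ) (V : Finset (ℝ × ℝ)), V.card = m →
    Stm1 S a a' (V.card + Y.card) → V ⊆ S → x ∉ V →
    (∀ p ∈ V, ∀ q ∈ insert c Y, dt a q < dt a p) → Br a a' V (insert c Y) p0 c s0 →
    Br a a' (insert x V) Y x qx sx →
    (Bad2' c p0 x V Y (k + 1)).card ≤ Cb (V.card + Y.card) (3 * k + 3) := by
  classical
  intro m
  induction m with
  | zero =>
    intro V hm _ _ _ _ _ _
    have hV := Finset.card_eq_zero.mp hm
    subst hV
    have : Bad2' c p0 x ∅ Y (k + 1) = ∅ := by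
      rw [Finset.eq_empty_iff_forall_notMem]
      intro A hA
      obtain ⟨h1, h2, -⟩ := Finset.mem_filter.mp hA
      rw [Finset.mem_powerset, Finset.subset_empty] at h1
      rw [h1] at h2
      exact Finset.notMem_empty _ h2
    rw [this]; simp
  | succ m ih =>
    intro V hm hSt hVS hxV hsV' hbc hbx
    have hsV : ∀ p ∈ V, ∀ q ∈ Y, dt a q < dt a p :=
      fun p hp q hq => hsV' p hp q (Finset.mem_insert_of_mem hq)
    have hYS' : Y ⊆ S := (Finset.subset_insert c Y).trans hYS
    have hVne : V.Nonempty := by
      rw [← Finset.card_pos]; omega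
    obtain ⟨p, q, s, hbr⟩ := exists_bridge a a' hVne hYne hsV
    have hx1 : dt (a' - s • a) q < dt (a' - s • a) x :=
      beyond_up hgp ha (Finset.insert_subset hxS hVS) hYS'
        (by
          intro z hz y hy
          rcases Finset.mem_insert.mp hz with rfl | hz
          · exact hsx y hy
          · exact hsV z hz y hy) hxV hbx hbr
    have hbey := beyond_low hgp ha hVS hYS hsV' hcY hbc hbr
    obtain ⟨r, hr, t, hreq, hrV, hrY, hrc⟩ := bstep hgp ha hVS hxS hxV
      (fun z hz => hsV' z hz c (Finset.mem_insert_self _ _)) hsx hbc hx0 hbr hbey hx1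
    have hrx : r ≠ x := fun h => hxV (h ▸ hr)
    have hVc : (V.erase r).card = m := by
      rw [Finset.card_erase_of_mem hr, hm]; rfl
    have hrx' : x ∉ V.erase r := fun h => hxV (Finset.mem_erase.mp h).2
    have hS1 : (Bad2'' c r x (V.erase r) Y (k + 1)).card ≤ Cb (m + Y.card) (3 * k + 2) := by
      have := bad2'' (k := k) hgp ha hYS' hYne (hVS hr) hxS (hsV r hr) hsx hrx hreq hrY hrc m
        (V.erase r) hVc (fun V' Y' c' q' s' k' h => hSt V' Y' c' q' s' k' (by omega))
        ((Finset.erase_subset _ _).trans hVS) (Finset.notMem_erase r V) hrx'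
        (fun z hz => hsV z (Finset.mem_erase.mp hz).2)
        (fun z hz => hrV z (Finset.mem_erase.mp hz).2 (Finset.mem_erase.mp hz).1)
        (by rw [Finset.insert_erase hr]; exact hbx)
      rwa [hVc] at this
    have hsplit1 : ∀ A ∈ Bad2' c p0 x V Y (k + 1), r ∈ A →
        A.erase r ∈ Bad2'' c r x (V.erase r) Y (k + 1) := by
      intro A hA hrA
      obtain ⟨h1, h2, h3, h4⟩ := Finset.mem_filter.mp hA
      rw [Finset.mem_powerset] at h1
      refine Finset.mem_filter.mpr ⟨?_, ?_, ?_⟩
      · rw [Finset.mem_powerset]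
        exact Finset.erase_subset_erase r h1
      · rw [Finset.card_erase_of_mem hrA]; omega
      · rw [erase_sdiff_erase hrA, Finset.insert_erase hrA]
        exact h4
    have e1 : V.card + Y.card = m + Y.card + 1 := by omega
    have e2 : Cb (m + Y.card + 1) (3 * k + 3) =
        Cb (m + Y.card) (3 * k + 2) + Cb (m + Y.card) (3 * k + 3) := Cb_succ _ _
    rw [e1, e2]
    by_cases hrp : r = p0
    · have : (Bad2' c p0 x V Y (k + 1)).card ≤
          (Bad2'' c r x (V.erase r) Y (k + 1)).card + (∅ : Finset (Finset (ℝ × ℝ))).card := by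
        apply split_erase r hsplit1
        intro A hA hrA
        obtain ⟨-, h2, -⟩ := Finset.mem_filter.mp hA
        exact absurd (hrp ▸ h2) hrA
      rw [Finset.card_empty] at this
      omega
    · have hp0 : p0 ∈ V.erase r := Finset.mem_erase.mpr ⟨Ne.symm hrp, hbc.1⟩
      have hS2 : (Bad2' c p0 x (V.erase r) Y (k + 1)).card ≤ Cb (m + Y.card) (3 * k + 3) := by
        have := ih (V.erase r) hVc
          (fun V' Y' c' q' s' k' h => hSt V' Y' c' q' s' k' (by omega))
          ((Finset.erase_subset _ _).trans hVS) hrx'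
          (fun z hz => hsV' z (Finset.mem_erase.mp hz).2)
          (Br.sub hbc (Finset.erase_subset _ _) hp0)
          (Br.sub hbx (Finset.insert_subset_insert _ (Finset.erase_subset _ _))
            (Finset.mem_insert_self _ _))
        rwa [hVc] at this
      have hsplit : (Bad2' c p0 x V Y (k + 1)).card ≤
          (Bad2'' c r x (V.erase r) Y (k + 1)).card +
            (Bad2' c p0 x (V.erase r) Y (k + 1)).card := by
        apply split_erase r hsplit1
        intro A hA hrA
        obtain ⟨h1, h2, h3, h4⟩ := Finset.mem_filter.mp hA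
        rw [Finset.mem_powerset] at h1
        refine Finset.mem_filter.mpr ⟨?_, h2, h3, ?_⟩
        · rw [Finset.mem_powerset]
          exact fun z hz => Finset.mem_erase.mpr ⟨fun h => hrA (h ▸ hz), h1 hz⟩
        · intro hcont
          exact h4 (hcont.mono (Finset.insert_subset_insert _
            (Finset.sdiff_subset_sdiff (Finset.erase_subset _ _) (Finset.Subset.refl _))))
      omega

/-- State 2, from state 1 for fewer points. -/
theorem bad2 {S : Finset (ℝ × ℝ)} (hgp : GP S) {a a' : ℝ × ℝ} (ha : cr a a' ≠ 0)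
    {V Y : Finset (ℝ × ℝ)} {c p0 : ℝ × ℝ} {s0 : ℝ} {k : ℕ} (hVS : V ⊆ S)
    (hYS : insert c Y ⊆ S) (hcY : c ∉ Y)
    (hsV' : ∀ p ∈ V, ∀ q ∈ insert c Y, dt a q < dt a p)
    (hbc : Br a a' V (insert c Y) p0 c s0)
    (hSt : Stm1 S a a' (V.card + Y.card - 1)) :
    (Bad2 c p0 V Y k).card ≤ Cb (V.card + Y.card) (3 * k + 1) := by
  classical
  have hsV : ∀ p ∈ V, ∀ q ∈ Y, dt a q < dt a p :=
    fun p hp q hq => hsV' p hp q (Finset.mem_insert_of_mem hq)
  have hYS' : Y ⊆ S := (Finset.subset_insert c Y).trans hYS
  have hVne : V.Nonempty := ⟨p0, hbc.1⟩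
  have hVpos := Finset.card_pos.mpr hVne
  rcases Nat.eq_zero_or_pos k with rfl | hk
  · have : Bad2 c p0 V Y 0 = ∅ := by
      rw [Finset.eq_empty_iff_forall_notMem]
      intro A hA
      obtain ⟨h1, h2, h3, h4⟩ := Finset.mem_filter.mp hA
      rw [Finset.mem_powerset] at h1
      apply h4
      have := cont_zero2 hgp ha (V \ A) (h1.trans hVS) hYS (fun z hz => hsV' z (h1 hz)) hcY
        (Br.sub hbc h1 h2) (by omega)
      simpa using this
    rw [this]; simp
  rcases Finset.eq_empty_or_nonempty Y with hY0 | hYne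
  · subst hY0
    have h1 : (Bad2 c p0 V ∅ k).card ≤ (V.powersetCard (k + 1)).card := by
      apply Finset.card_le_card
      intro A hA
      obtain ⟨h1, h2, h3, h4⟩ := Finset.mem_filter.mp hA
      rw [Finset.mem_powerset] at h1
      rw [Finset.mem_powersetCard]
      refine ⟨h1, ?_⟩
      rw [h3, Finset.card_empty]; omega
    rw [Finset.card_powersetCard] at h1
    refine h1.trans ?_
    rw [Finset.card_empty, Nat.add_zero]
    exact choose_le_Cb (by omega)
  obtain ⟨k, rfl⟩ : ∃ k', k = k' + 1 := ⟨k - 1, by omega⟩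
  obtain ⟨p, q, s, hbr⟩ := exists_bridge a a' hVne hYne hsV
  have hp : p ∈ V := hbr.1
  have hq : q ∈ Y := hbr.2.1
  obtain ⟨M, hM⟩ : ∃ M, V.card + Y.card = M + 1 := ⟨V.card + Y.card - 1, by omega⟩
  have hVc : (V.erase p).card + Y.card = M := by
    rw [Finset.card_erase_of_mem hp]; omega
  have hpc : p ∉ V.erase p := Finset.notMem_erase p V
  have hst : ∀ y ∈ V, y ≠ p → dt (a' - s • a) y < dt (a' - s • a) p := by
    intro y hy hyp
    refine lt_of_le_of_ne (hbr.2.2.2.1 y hy) ?_
    intro heq
    exact ghost_line hgp ha (hVS hp) (hYS' hq) (hVS hy) (hsV p hp q hq) hyp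
      (hsV y hy q hq) hbr.2.2.1 heq
  have hS1 : (Bad1 p (V.erase p) Y (k + 1)).card ≤ Cb M (3 * k + 4) := by
    have := hSt (V.erase p) Y p q s (k + 1) (by omega)
      (by rw [Finset.insert_erase hp]; exact hVS) hYS' (Finset.notMem_erase p V)
      (by rw [Finset.insert_erase hp]; exact hsV) (by rw [Finset.insert_erase hp]; exact hbr)
    rw [hVc] at this
    exact this
  have hx0 : dt (a' - s0 • a) p ≤ dt (a' - s0 • a) c := by
    rw [hbc.2.2.1]; exact hbc.2.2.2.1 p hp
  have hbey := beyond_low hgp ha hVS hYS hsV' hcY hbc hbr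
  have e2 : Cb (M + 1) (3 * (k + 1) + 1) = Cb M (3 * k + 3) + Cb M (3 * k + 4) := Cb_succ _ _
  rw [hM, e2]
  have hsplit1 : ∀ A ∈ Bad2 c p0 V Y (k + 1), p ∈ A → A.erase p ∈ Bad1 p (V.erase p) Y (k + 1) := by
    intro A hA hpA
    obtain ⟨h1, h2, h3, h4⟩ := Finset.mem_filter.mp hA
    rw [Finset.mem_powerset] at h1
    refine Finset.mem_filter.mpr ⟨?_, ?_, ?_⟩
    · rw [Finset.mem_powerset]
      exact Finset.erase_subset_erase p h1
    · rw [Finset.card_erase_of_mem hpA]; omega
    · intro hcont
      apply h4
      rw [erase_sdiff_erase hpA] at hcont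
      have hAS : A ⊆ S := h1.trans hVS
      have hGV : V \ A ⊆ V := Finset.sdiff_subset
      have hbA : Br a a' A Y p q s := Br.sub hbr h1 hpA
      have hsAG : ∀ z ∈ A ∪ (V \ A), ∀ y ∈ Y, dt a y < dt a z := by
        intro z hz
        rcases Finset.mem_union.mp hz with hz | hz
        · exact hsV z (h1 hz)
        · exact hsV z (hGV hz)
      have hG : ∀ y ∈ V \ A, dt (a' - s • a) y < dt (a' - s • a) p := by
        intro y hy
        obtain ⟨hy1, hy2⟩ := Finset.mem_sdiff.mp hy
        exact hst y hy1 (fun h => hy2 (h ▸ hpA))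
      have hpG : p ∉ V \ A := fun h => (Finset.mem_sdiff.mp h).2 hpA
      have hpY : p ∉ Y := fun h => lt_irrefl _ (hsV p hp p h)
      have hv := vis_up hgp ha hAS hYS' (hGV.trans hVS) hsAG hbA hG hbey
      exact cont_up hpA hpG hpY hv hcont
  by_cases hpp : p = p0
  · have : (Bad2 c p0 V Y (k + 1)).card ≤
        (Bad1 p (V.erase p) Y (k + 1)).card + (∅ : Finset (Finset (ℝ × ℝ))).card := by
      apply split_erase p hsplit1
      intro A hA hpA
      obtain ⟨-, h2, -⟩ := Finset.mem_filter.mp hA
      exact absurd (hpp ▸ h2) hpA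
    rw [Finset.card_empty] at this
    omega
  · have hp0 : p0 ∈ V.erase p := Finset.mem_erase.mpr ⟨Ne.symm hpp, hbc.1⟩
    have hx0' : dt (a' - s0 • a) p < dt (a' - s0 • a) c := by
      refine lt_of_le_of_ne hx0 ?_
      intro heq
      exact ghost_line hgp ha (hVS hbc.1) (hYS (Finset.mem_insert_self c Y)) (hVS hp)
        (hsV' p0 hbc.1 c (Finset.mem_insert_self c Y)) hpp
        (hsV' p hp c (Finset.mem_insert_self c Y)) hbc.2.2.1 (heq.trans hbc.2.2.1)
    have hS2 : (Bad2' c p0 p (V.erase p) Y (k + 1)).card ≤ Cb M (3 * k + 3) := by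
      have := bad2' (k := k) hgp ha hYS hYne hcY (hVS hp) (hsV p hp) hx0' (V.erase p).card
        (V.erase p) rfl (fun V' Y' c' q' s' k' h => hSt V' Y' c' q' s' k' (by omega))
        ((Finset.erase_subset _ _).trans hVS) (Finset.notMem_erase p V)
        (fun z hz => hsV' z (Finset.mem_erase.mp hz).2)
        (Br.sub hbc (Finset.erase_subset _ _) hp0)
        (by rw [Finset.insert_erase hp]; exact hbr)
      rwa [hVc] at this
    have hsplit : (Bad2 c p0 V Y (k + 1)).card ≤
        (Bad1 p (V.erase p) Y (k + 1)).card + (Bad2' c p0 p (V.erase p) Y (k + 1)).card := by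
      apply split_erase p hsplit1
      intro A hA hpA
      obtain ⟨h1, h2, h3, h4⟩ := Finset.mem_filter.mp hA
      rw [Finset.mem_powerset] at h1
      refine Finset.mem_filter.mpr ⟨?_, h2, h3, ?_⟩
      · rw [Finset.mem_powerset]
        exact fun z hz => Finset.mem_erase.mpr ⟨fun h => hpA (h ▸ hz), h1 hz⟩
      · intro hcont
        apply h4
        refine hcont.mono ?_
        intro z hz
        rcases Finset.mem_insert.mp hz with rfl | hz
        · exact Finset.mem_sdiff.mpr ⟨hp, hpA⟩
        · exact Finset.sdiff_subset_sdiff (Finset.erase_subset _ _) (Finset.Subset.refl _) hz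
    omega

/-- **The counting lemma.** -/
theorem stm1 {S : Finset (ℝ × ℝ)} (hgp : GP S) {a a' : ℝ × ℝ} (ha : cr a a' ≠ 0) (m : ℕ) :
    Stm1 S a a' m := by
  classical
  induction m with
  | zero =>
    intro V Y c q0 s0 k hm hcS hYS hcV hsep hbc
    exfalso
    have := Finset.card_pos.mpr ⟨q0, hbc.2.1⟩
    omega
  | succ M ih =>
    intro V Y c q0 s0 k hm hcS hYS hcV hsep hbc
    rcases Nat.lt_or_ge (V.card + Y.card) (M + 1) with hlt | hge
    · exact ih V Y c q0 s0 k (by omega) hcS hYS hcV hsep hbc
    have hM : V.card + Y.card = M + 1 := by omega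
    have hVS : V ⊆ S := (Finset.subset_insert c V).trans hcS
    have hsV : ∀ p ∈ V, ∀ q ∈ Y, dt a q < dt a p :=
      fun p hp => hsep p (Finset.mem_insert_of_mem hp)
    have hYne : Y.Nonempty := ⟨q0, hbc.2.1⟩
    rcases Nat.eq_zero_or_pos k with rfl | hk
    · have : Bad1 c V Y 0 = ∅ := by
        rw [Finset.eq_empty_iff_forall_notMem]
        intro A hA
        obtain ⟨h1, h2, h3⟩ := Finset.mem_filter.mp hA
        rw [Finset.mem_powerset] at h1
        apply h3
        have := cont_zero1 hgp ha (V \ A) ((Finset.insert_subset_insert _ h1).trans hcS) hYS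
          (fun z hz => hsep z (Finset.insert_subset_insert _ h1 hz)) (fun h => hcV (h1 h))
          (Br.sub hbc (Finset.insert_subset_insert _ h1) (Finset.mem_insert_self _ _)) (by omega)
        simpa using this
      rw [this]; simp
    obtain ⟨k, rfl⟩ : ∃ k', k = k' + 1 := ⟨k - 1, by omega⟩
    rcases Finset.eq_empty_or_nonempty V with hV0 | hVne
    · subst hV0
      have : Bad1 c ∅ Y (k + 1) = ∅ := by
        rw [Finset.eq_empty_iff_forall_notMem]
        intro A hA
        obtain ⟨h1, h2, -⟩ := Finset.mem_filter.mp hA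
        rw [Finset.mem_powerset, Finset.subset_empty] at h1
        rw [h1, Finset.card_empty] at h2
        omega
      rw [this]; simp
    obtain ⟨p, q, s, hbr⟩ := exists_bridge a a' hVne hYne hsV
    have hp : p ∈ V := hbr.1
    have hq : q ∈ Y := hbr.2.1
    have hpY : p ∉ Y := fun h => lt_irrefl _ (hsV p hp p h)
    have hqY : q ∉ Y.erase q := Finset.notMem_erase q Y
    have hVc : (V.erase p).card + Y.card = M := by
      rw [Finset.card_erase_of_mem hp]
      have := Finset.card_pos.mpr hVne
      omega
    have hYc : V.card + (Y.erase q).card = M := by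
      rw [Finset.card_erase_of_mem hq]
      have := Finset.card_pos.mpr hYne
      omega
    have hst : ∀ y ∈ V, y ≠ p → dt (a' - s • a) y < dt (a' - s • a) p := by
      intro y hy hyp
      refine lt_of_le_of_ne (hbr.2.2.2.1 y hy) ?_
      intro heq
      exact ghost_line hgp ha (hVS hp) (hYS hq) (hVS hy) (hsV p hp q hq) hyp
        (hsV y hy q hq) hbr.2.2.1 heq
    have hx0' : dt (a' - s0 • a) p < dt (a' - s0 • a) c := by
      refine lt_of_le_of_ne (hbc.2.2.2.1 p (Finset.mem_insert_of_mem hp)) ?_
      intro heq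
      exact ghost_line hgp ha (hcS (Finset.mem_insert_self c V)) (hYS hbc.2.1) (hVS hp)
        (hsep c (Finset.mem_insert_self c V) q0 hbc.2.1) (fun h => hcV (h ▸ hp))
        (hsV p hp q0 hbc.2.1) hbc.2.2.1 heq
    have hS1 : (Bad2 q p V (Y.erase q) (k + 1)).card ≤ Cb M (3 * k + 4) := by
      have := bad2 (k := k + 1) hgp ha hVS (c := q) (Y := Y.erase q) (p0 := p) (s0 := s)
        (by rw [Finset.insert_erase hq]; exact hYS) hqY
        (by rw [Finset.insert_erase hq]; exact hsV) (by rw [Finset.insert_erase hq]; exact hbr)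
        (fun V' Y' c' q' s' k' h => ih V' Y' c' q' s' k' (by omega))
      rw [hYc] at this
      exact this
    have hS2 : (Bad1' c p (V.erase p) Y (k + 1)).card ≤ Cb M (3 * k + 3) := by
      have := bad1' (k := k) hgp ha hYS (hcS (Finset.mem_insert_self c V)) (hVS hp)
        (fun y hy => hsep c (Finset.mem_insert_self c V) y hy) (hsV p hp) hx0'
        (V.erase p).card (V.erase p) rfl
        (fun V' Y' c' q' s' k' h => ih V' Y' c' q' s' k' (by omega))
        ((Finset.erase_subset _ _).trans hVS) (fun h => hcV (Finset.mem_erase.mp h).2)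
        (Finset.notMem_erase p V) (fun z hz => hsV z (Finset.mem_erase.mp hz).2)
        (Br.sub hbc (Finset.insert_subset_insert _ (Finset.erase_subset _ _))
          (Finset.mem_insert_self _ _))
        (by rw [Finset.insert_erase hp]; exact hbr)
      rwa [hVc] at this
    have hsplit : (Bad1 c V Y (k + 1)).card ≤
        (Bad2 q p V (Y.erase q) (k + 1)).card + (Bad1' c p (V.erase p) Y (k + 1)).card := by
      apply split_keep p
      · intro A hA hpA
        obtain ⟨h1, h2, h3⟩ := Finset.mem_filter.mp hA
        refine Finset.mem_filter.mpr ⟨h1, hpA, ?_, ?_⟩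
        · rw [Finset.card_erase_of_mem hq]
          have := Finset.card_pos.mpr hYne
          omega
        · intro hcont
          rw [Finset.mem_powerset] at h1
          apply h3
          have hAS : A ⊆ S := h1.trans hVS
          have hGV : V \ A ⊆ V := Finset.sdiff_subset
          have hbA : Br a a' A Y p q s := Br.sub hbr h1 hpA
          have hbcA : Br a a' (insert c A) Y c q0 s0 :=
            Br.sub hbc (Finset.insert_subset_insert _ h1) (Finset.mem_insert_self _ _)
          have hsAG : ∀ z ∈ A ∪ (V \ A), ∀ y ∈ Y, dt a y < dt a z := by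
            intro z hz
            rcases Finset.mem_union.mp hz with hz | hz
            · exact hsV z (h1 hz)
            · exact hsV z (hGV hz)
          have hG : ∀ y ∈ V \ A, dt (a' - s • a) y < dt (a' - s • a) p := by
            intro y hy
            obtain ⟨hy1, hy2⟩ := Finset.mem_sdiff.mp hy
            exact hst y hy1 (fun h => hy2 (h ▸ hpA))
          have hbey := beyond_up hgp ha ((Finset.insert_subset_insert _ h1).trans hcS) hYS
            (fun z hz => hsep z (Finset.insert_subset_insert _ h1 hz)) (fun h => hcV (h1 h))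
            hbcA hbA
          have hv := vis_low hgp ha hAS hYS (hGV.trans hVS) hsAG hbA hG hbey
          have hqA : q ∉ A ∪ (V \ A) := by
            rw [Finset.mem_union, not_or]
            exact ⟨fun h => lt_irrefl _ (hsV q (h1 h) q hq),
              fun h => lt_irrefl _ (hsV q (hGV h) q hq)⟩
          have h4 := cont_low hq hqA hv hcont
          have e : 2 * (Y.card + (k + 1)) = 2 * ((Y.erase q).card + (k + 1)) + 1 + 1 := by
            rw [Finset.card_erase_of_mem hq]
            have := Finset.card_pos.mpr hYne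
            omega
          rw [e]; exact h4
      · intro A hA hpA
        obtain ⟨h1, h2, h3⟩ := Finset.mem_filter.mp hA
        rw [Finset.mem_powerset] at h1
        refine Finset.mem_filter.mpr ⟨?_, h2, ?_⟩
        · rw [Finset.mem_powerset]
          exact fun z hz => Finset.mem_erase.mpr ⟨fun h => hpA (h ▸ hz), h1 hz⟩
        · intro hcont
          apply h3
          refine hcont.mono ?_
          intro z hz
          rcases Finset.mem_insert.mp hz with rfl | hz
          · exact Finset.mem_sdiff.mpr ⟨hp, hpA⟩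
          · exact Finset.sdiff_subset_sdiff (Finset.erase_subset _ _) (Finset.Subset.refl _) hz
    have e2 : Cb (M + 1) (3 * (k + 1) + 1) = Cb M (3 * k + 3) + Cb M (3 * k + 4) := Cb_succ _ _
    rw [hM, e2]
    omega

end Pool.Agent.AltFew
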