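import Pool.Agent.AltALL.DetourM71

/-! Covers by sets whose hulls contain no red point, and the strips of the end region. -/

namespace Pool.Agent.AltFew

open Pool.Agent.AltPath Pool.Agent.AltHP Pool.Agent.AltALL71

/-- G is covered by at most t of its subsets whose convex hulls contain no point of A. -/
def Cov (A G : Finset (ℝ × ℝ)) (t : ℕ) : Prop :=
  ∃ C : Finset (Finset (ℝ × ℝ)), C.card ≤ t ∧ (∀ F ∈ C, F ⊆ G ∧ Free A F) ∧
    ∀ y ∈ G, ∃ F ∈ C, y ∈ F

/-- Every such cover of G has at least t members. -/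
def Low (A G : Finset (ℝ × ℝ)) (t : ℕ) : Prop := ∀ t', Cov A G t' → t ≤ t'

theorem Cov.of_free {A G : Finset (ℝ × ℝ)} (h : Free A G) : Cov A G 1 := by
  classical
  refine ⟨{G}, by simp, ?_, ?_⟩
  · intro F hF
    rw [Finset.mem_singleton] at hF
    subst hF
    exact ⟨Finset.Subset.refl _, h⟩
  · intro y hy
    exact ⟨G, Finset.mem_singleton_self G, hy⟩

theorem Cov.empty (A : Finset (ℝ × ℝ)) : Cov A ∅ 0 :=
  ⟨∅, by simp, fun F hF => absurd hF (Finset.notMem_empty F),
    fun y hy => absurd hy (Finset.notMem_empty y)⟩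

theorem Cov.le {A G : Finset (ℝ × ℝ)} {t t' : ℕ} (h : Cov A G t) (ht : t ≤ t') : Cov A G t' := by
  obtain ⟨C, h1, h2, h3⟩ := h
  exact ⟨C, h1.trans ht, h2, h3⟩

theorem Cov.union {A G1 G2 : Finset (ℝ × ℝ)} {a b : ℕ} (h1 : Cov A G1 a) (h2 : Cov A G2 b) :
    Cov A (G1 ∪ G2) (a + b) := by
  classical
  obtain ⟨C, c1, c2, c3⟩ := h1
  obtain ⟨D, d1, d2, d3⟩ := h2
  refine ⟨C ∪ D, (Finset.card_union_le _ _).trans (by omega), ?_, ?_⟩
  · intro F hF
    rcases Finset.mem_union.mp hF with h | h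
    · exact ⟨(c2 F h).1.trans Finset.subset_union_left, (c2 F h).2⟩
    · exact ⟨(d2 F h).1.trans Finset.subset_union_right, (d2 F h).2⟩
  · intro y hy
    rcases Finset.mem_union.mp hy with h | h
    · obtain ⟨F, hF, hy⟩ := c3 y h
      exact ⟨F, Finset.mem_union_left _ hF, hy⟩
    · obtain ⟨F, hF, hy⟩ := d3 y h
      exact ⟨F, Finset.mem_union_right _ hF, hy⟩

theorem Cov.sub {A G G' : Finset (ℝ × ℝ)} {t : ℕ} (h : Cov A G t) (hG : G' ⊆ G) : Cov A G' t := by
  classical
  obtain ⟨C, c1, c2, c3⟩ := h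
  refine ⟨C.image (fun F => F ∩ G'), Finset.card_image_le.trans c1, ?_, ?_⟩
  · intro F hF
    obtain ⟨F', hF', rfl⟩ := Finset.mem_image.mp hF
    exact ⟨Finset.inter_subset_right,
      fun r hr => hull_mono Finset.inter_subset_left ((c2 F' hF').2 r hr)⟩
  · intro y hy
    obtain ⟨F, hF, hyF⟩ := c3 y (hG hy)
    exact ⟨F ∩ G', Finset.mem_image_of_mem _ hF, Finset.mem_inter.mpr ⟨hyF, hy⟩⟩

theorem Cov.split {A G : Finset (ℝ × ℝ)} (p : ℝ × ℝ → Prop) [DecidablePred p] {a b : ℕ}
    (h1 : Cov A (G.filter p) a) (h2 : Cov A (G.filter (fun y => ¬ p y)) b) : Cov A G (a + b) := by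
  classical
  have h := h1.union h2
  rwa [Finset.filter_union_filter_not_eq] at h

theorem Low.le {A G : Finset (ℝ × ℝ)} {t t' : ℕ} (h : Low A G t) (ht : t' ≤ t) : Low A G t' :=
  fun c hc => ht.trans (h c hc)

theorem Low.split {A G : Finset (ℝ × ℝ)} (p : ℝ × ℝ → Prop) [DecidablePred p] {a b : ℕ}
    (h : Low A G (a + b)) (h2 : Cov A (G.filter (fun y => ¬ p y)) b) : Low A (G.filter p) a := by
  intro c hc
  have := h _ (Cov.split p hc h2)
  omega

/-- The strips of the end region. -/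
theorem strips34 {A0 G0 : Finset (ℝ × ℝ)} {w : ℝ × ℝ}
    (hw : ∀ p ∈ A0, ∀ q ∈ G0, dt w p ≠ dt w q) : ∀ (m : ℕ) (A G : Finset (ℝ × ℝ)),
    A.card = m → A ⊆ A0 → G ⊆ G0 →
    (∀ r ∈ A0, r ∉ A → r ∉ convexHull ℝ (G : Set (ℝ × ℝ))) → Cov A0 G (m + 1) := by
  classical
  intro m
  induction m with
  | zero =>
    intro A G hA hAA hG hused
    have hA' : A = ∅ := Finset.card_eq_zero.mp hA
    subst hA'
    exact Cov.of_free (fun r hr => hused r hr (Finset.notMem_empty r))
  | succ m ih =>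
    intro A G hA hAA hG hused
    have hne : A.Nonempty := by
      rw [← Finset.card_pos]; omega
    obtain ⟨r, hr, hmax⟩ := Finset.exists_max_image A (fun q => dt w q) hne
    have h1 : Cov A0 (G.filter (fun y => dt w r < dt w y)) 1 := by
      apply Cov.of_free
      exact free_slice (w := w) (c := dt w r) (Finset.filter_subset _ _) hused hmax
        (fun y hy => (Finset.mem_filter.mp hy).2)
    have h2 : Cov A0 (G.filter (fun y => ¬ dt w r < dt w y)) (m + 1) := by
      apply ih (A.erase r) _ (by rw [Finset.card_erase_of_mem hr]; omega)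
        ((Finset.erase_subset _ _).trans hAA) ((Finset.filter_subset _ _).trans hG)
      intro q hq hqA
      by_cases hqr : q = r
      · subst hqr
        apply hull_lt (w := w)
        intro y hy
        obtain ⟨hy1, hy2⟩ := Finset.mem_filter.mp hy
        exact lt_of_le_of_ne (not_lt.mp hy2) (hw q hq y (hG hy1)).symm
      · exact hull_mono (Finset.filter_subset _ _)
          (hused q hq (fun h => hqA (Finset.mem_erase.mpr ⟨hqr, h⟩)))
    exact (Cov.split (fun y => dt w r < dt w y) h1 h2).le (by omega)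

end Pool.Agent.AltFew
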