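import Pool.Agent.AltHP.Cut

/-! The half-planes of a colouring without long paths, and the count of the restrictions of a
family of colourings. -/

namespace Pool.Agent.AltFew

open Pool.Agent.AltPath Pool.Agent.AltHP Pool.Agent.HPD79

/-- If no path has n + g vertices, then half-planes are balanced up to 2 (j (g + 1) + g). -/
theorem disc34 {R P : Finset (ℝ × ℝ)} {n g j : ℕ} (hgp : GP P) (hR : R ⊆ P)
    (hP : P.card = 2 * n) (hRn : R.card = n) (hg : 1 ≤ g) (hj : 2 * n ≤ 2 ^ j * g)
    (hno : ¬ HasPath R (P \ R) (n + g)) {H : Finset (ℝ × ℝ)} (hH : IsHP79 P H) :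
    |Dc79 R H| ≤ ((2 * (j * (g + 1) + g) : ℕ) : ℤ) := by
  classical
  have hun : R ∪ P \ R = P := Finset.union_sdiff_of_subset hR
  have hdis : Disjoint R (P \ R) := Finset.disjoint_sdiff
  have hBn : (P \ R).card = n := by
    rw [Finset.card_sdiff_of_subset hR, hP, hRn]; omega
  have hG : ∀ k, HasPath R (P \ R) k → k < n + g := by
    intro k hk
    by_contra hcon
    exact hno (HasPath.mono hk (by omega))
  obtain ⟨G, rfl⟩ : ∃ G, g = G + 1 := ⟨g - 1, by omega⟩
  rcases lt_or_ge |Dc79 R H| ((G : ℤ) + 1) with h | h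
  · push_cast
    have : (0 : ℤ) ≤ (j : ℤ) * ((G : ℤ) + 1 + 1) := by positivity
    linarith
  · have h1 := disc_bound cut hdis (by rw [hun]; exact hgp) hRn hBn
      (G := G) (fun k hk => by have := hG k hk; omega) (by rw [hun]; exact hH) j
      (by
        have h2 : (2 * n : ℤ) ≤ 2 ^ j * ((G : ℤ) + 1) := by exact_mod_cast hj
        have h3 : (2 : ℤ) ^ j * ((G : ℤ) + 1) ≤ 2 ^ j * |Dc79 R H| :=
          mul_le_mul_of_nonneg_left h (by positivity)
        linarith)
    push_cast
    linarith

/-- The number of restrictions of a family of sets to I, if for each restriction to X there are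
at most M restrictions to I. -/
theorem card_image_step34 {α : Type*} [DecidableEq α] (F : Finset (Finset α)) {X I : Finset α}
    {M : ℕ}
    (h : ∀ R0, ((F.filter (fun R => R ∩ X = R0)).image (fun R => R ∩ I)).card ≤ M) :
    (F.image (fun R => R ∩ I)).card ≤ M * (F.image (fun R => R ∩ X)).card := by
  have h1 : F.image (fun R => R ∩ I) ⊆ (F.image (fun R => R ∩ X)).biUnion
      (fun R0 => (F.filter (fun R => R ∩ X = R0)).image (fun R => R ∩ I)) := by
    intro J hJ
    obtain ⟨R, hR, rfl⟩ := Finset.mem_image.mp hJ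
    exact Finset.mem_biUnion.mpr ⟨R ∩ X, Finset.mem_image_of_mem _ hR,
      Finset.mem_image.mpr ⟨R, Finset.mem_filter.mpr ⟨hR, rfl⟩, rfl⟩⟩
  refine (Finset.card_le_card h1).trans (Finset.card_biUnion_le.trans ?_)
  refine (Finset.sum_le_sum (fun R0 _ => h R0)).trans ?_
  rw [Finset.sum_const, smul_eq_mul, mul_comm]

/-- The trivial bound for the number of restrictions. -/
theorem card_image_triv34 {α : Type*} [DecidableEq α] (F : Finset (Finset α)) (I : Finset α) :
    (F.image (fun R => R ∩ I)).card ≤ 2 ^ I.card := by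
  rw [← Finset.card_powerset]
  refine Finset.card_le_card ?_
  intro J hJ
  obtain ⟨R, -, rfl⟩ := Finset.mem_image.mp hJ
  exact Finset.mem_powerset.mpr Finset.inter_subset_right

/-- A family of subsets of P which contain v is determined by the restrictions to P minus v. -/
theorem card_eq_image34 {α : Type*} [DecidableEq α] (F : Finset (Finset α)) {P : Finset α} {v : α}
    (hFP : ∀ R ∈ F, R ⊆ P) (hFv : ∀ R ∈ F, v ∈ R) :
    (F.image (fun R => R ∩ P.erase v)).card = F.card := by
  apply Finset.card_image_of_injOn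
  intro R hR S hS h
  have h1 : R ∩ P.erase v = S ∩ P.erase v := h
  ext q
  have hq : q ∈ R ∩ P.erase v ↔ q ∈ S ∩ P.erase v := by rw [h1]
  have hv1 := hFv R hR
  have hv2 := hFv S hS
  by_cases hqv : q = v
  · subst hqv; tauto
  · rw [Finset.mem_inter, Finset.mem_inter, Finset.mem_erase] at hq
    constructor
    · intro hqR
      exact (hq.mp ⟨hqR, hqv, hFP R hR hqR⟩).1
    · intro hqS
      exact (hq.mpr ⟨hqS, hqv, hFP S hS hqS⟩).1

/-- The recursion for the numbers of restrictions. -/
theorem rec34 {N : ℕ → ℕ} {M s Φ : ℕ} (hΦ : 1 ≤ Φ) (h0 : ∀ m, m < 2 * s → N m ≤ 4 ^ s)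
    (h1 : ∀ m, 2 * s ≤ m → m ≤ M → N m ≤ Φ * N (m / 2 - s)) :
    ∀ i m, m < 2 ^ i * (2 * s) → m ≤ M → N m ≤ Φ ^ i * 4 ^ s := by
  intro i
  induction i with
  | zero =>
    intro m hm _
    rw [pow_zero, one_mul] at hm ⊢
    exact h0 m hm
  | succ i ih =>
    intro m hm hmM
    rcases lt_or_ge m (2 * s) with h | h
    · refine (h0 m h).trans ?_
      exact Nat.le_mul_of_pos_left _ (pow_pos (by omega) _)
    · have h2 : m / 2 - s < 2 ^ i * (2 * s) := by
        rw [pow_succ] at hm
        have h3 : m / 2 < 2 ^ i * (2 * s) := by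
          rw [Nat.div_lt_iff_lt_mul (by norm_num)]
          linarith
        omega
      have h3 := ih (m / 2 - s) h2 (by omega)
      calc N m ≤ Φ * N (m / 2 - s) := h1 m h hmM
        _ ≤ Φ * (Φ ^ i * 4 ^ s) := Nat.mul_le_mul_left _ h3
        _ = Φ ^ (i + 1) * 4 ^ s := by rw [pow_succ]; ring

end Pool.Agent.AltFew
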