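import Pool.Agent.AltALL.Detour71
import Pool.Agent.AltHP.Cut

/-! The two-arms path at a point v: a continuation from v below a line through v and the cut path
above it. -/

namespace Pool.Agent.AltFew

open Pool.Agent.AltPath Pool.Agent.AltHP Pool.Agent.AltALL71

/-- A red point v, a continuation from v of N points on the closed lower side of a line through v
and j red and j blue points strictly above it give a path with N + j + 1 vertices. -/
theorem path_of_cont {R B : Finset (ℝ × ℝ)} (hdis : Disjoint R B) (hgp : GP (R ∪ B))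
    {v w : ℝ × ℝ} (hv : v ∈ R) {A Y G Z : Finset (ℝ × ℝ)} (hA : A ⊆ R) (hY : Y ⊆ B) (hG : G ⊆ B)
    (hvn : v ∉ A) (hs : ∀ q ∈ A ∪ G ∪ Y, dt w (q - v) ≤ 0) (hZ : ∀ q ∈ Z, 0 < dt w (q - v))
    (hZP : Z ⊆ R ∪ B) {N j : ℕ} (hj1 : j ≤ (R ∩ Z).card) (hj2 : j ≤ (B ∩ Z).card)
    (h : Cont v A Y G N false) : HasPath R B (N + j + 1) := by
  classical
  obtain ⟨l, hnd, hmem, hlen, hgood, halt⟩ := h
  have hnB : ∀ q, q ∈ B → q ∉ R := fun q hq h => Finset.disjoint_left.mp hdis h hq
  have hvl : v ∉ l := by
    intro hvl
    rcases Finset.mem_union.mp (hmem v hvl) with h | h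
    · rcases Finset.mem_union.mp h with h | h
      · exact hvn h
      · exact hnB v (hG h) hv
    · exact hnB v (hY h) hv
  have halt1 : Alt R true l := by
    have := halt R true (fun q hq => by simp [hA hq]) (fun q hq => by
      have h1 : q ∈ B := by
        rcases Finset.mem_union.mp hq with h | h
        · exact hY h
        · exact hG h
      simp [hnB q h1])
    simpa using this
  obtain ⟨l2, nd2, mem2, good2, len2, alt2⟩ := cut v w Z (B ∩ Z) (R ∩ Z)
    (hgp.mono (Finset.insert_subset (Finset.mem_union_left _ hv) hZP)) hZ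
    Finset.inter_subset_right Finset.inter_subset_right
    (Finset.disjoint_of_subset_left Finset.inter_subset_left
      (Finset.disjoint_of_subset_right Finset.inter_subset_left hdis.symm)) j hj2 hj1
  have halt2 : Alt R true l2 := alt2 R true
    (fun q hq => by simp [hnB q (Finset.mem_inter.mp hq).1])
    (fun q hq => by simp [(Finset.mem_inter.mp hq).1])
  have hp := hasPath_two_arms (w := w) hdis (Finset.mem_union_left _ hv)
    (fun q hq => by
      rcases Finset.mem_union.mp (hmem q hq) with h | h
      · rcases Finset.mem_union.mp h with h | h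
        · exact Finset.mem_union_left _ (hA h)
        · exact Finset.mem_union_right _ (hG h)
      · exact Finset.mem_union_right _ (hY h))
    (fun q hq => hZP (mem2 q hq)) (List.nodup_cons.mpr ⟨hvl, hnd⟩) nd2 hgood good2 true
    (by simp [hv]) halt1 halt2 (fun q hq => hs q (hmem q hq)) (fun q hq => hZ q (mem2 q hq))
  exact HasPath.mono hp (by omega)

end Pool.Agent.AltFew
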