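import Pool.Agent.AltFew.DetC34
import Pool.Agent.AltFew.Disc34

/-! If there is no long path, then the points of one colour above a line are covered by few sets
whose hulls contain no point of the other colour. -/

namespace Pool.Agent.AltFew

open Pool.Agent.AltPath Pool.Agent.AltHP Pool.Agent.HPD79 Pool.Agent.AltALL71

/-- One side of a line. -/
theorem half34 {R B : Finset (ℝ × ℝ)} (hdis : Disjoint R B) (hgp : GP (R ∪ B)) {n g K : ℕ}
    (hR : R.card = n) (hB : B.card = n) (hG : ∀ k, HasPath R B k → k ≤ n + g)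
    (hK : ∀ H, IsHP79 (R ∪ B) H → |Dc79 R H| ≤ (K : ℤ)) {a a' : ℝ × ℝ} (hcr : cr a a' ≠ 0)
    {c : ℝ} {s : ℕ} (hs : s = g + K + 2) (hsn : s + K < n)
    (hc : ((R ∪ B).filter (fun p => c < dt a p)).card = n + s)
    (hcne : ∀ p ∈ R ∪ B, dt a p ≠ c) :
    Cov R (B ∩ (R ∪ B).filter (fun p => c < dt a p)) (4 * (g + K + 1)) := by
  classical
  have hPc : (R ∪ B).card = 2 * n := by
    rw [Finset.card_union_of_disjoint hdis, hR, hB]; ring
  obtain ⟨U, hU⟩ : ∃ U, U = (R ∪ B).filter (fun p => c < dt a p) := ⟨_, rfl⟩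
  obtain ⟨L, hL⟩ : ∃ L, L = (R ∪ B).filter (fun p => ¬ c < dt a p) := ⟨_, rfl⟩
  have hUP : U ⊆ R ∪ B := by rw [hU]; exact Finset.filter_subset _ _
  have hLP : L ⊆ R ∪ B := by rw [hL]; exact Finset.filter_subset _ _
  have hUm : ∀ p, p ∈ U ↔ p ∈ R ∪ B ∧ c < dt a p := by
    intro p; rw [hU, Finset.mem_filter]
  have hLm : ∀ p, p ∈ L ↔ p ∈ R ∪ B ∧ dt a p < c := by
    intro p
    rw [hL, Finset.mem_filter]
    constructor
    · rintro ⟨h1, h2⟩
      exact ⟨h1, lt_of_le_of_ne (not_lt.mp h2) (hcne p h1)⟩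
    · rintro ⟨h1, h2⟩
      exact ⟨h1, not_lt.mpr h2.le⟩
  have hUHP : IsHP79 (R ∪ B) U := by
    refine ⟨hUP, -a, ?_⟩
    intro x hx y hy hyU
    rw [dt_neg_left, dt_neg_left]
    have h1 := ((hUm x).mp hx).2
    have h2 : ¬ c < dt a y := fun h => hyU ((hUm y).mpr ⟨hy, h⟩)
    push Not at h2
    linarith
  have hLHP : IsHP79 (R ∪ B) L := by
    refine ⟨hLP, a, ?_⟩
    intro x hx y hy hyL
    have h1 := ((hLm x).mp hx).2
    have h2 : ¬ dt a y < c := fun h => hyL ((hLm y).mpr ⟨hy, h⟩)
    push Not at h2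
    linarith
  have hUc : U.card = n + s := by rw [hU]; exact hc
  have hLc : L.card = n - s := by
    have h1 := Finset.card_filter_add_card_filter_not (s := R ∪ B) (fun p => c < dt a p)
    rw [← hU, ← hL] at h1
    omega
  have hDU := hK U hUHP
  have hDL := hK L hLHP
  rw [Dc79_eq hdis hUP, abs_le] at hDU
  rw [Dc79_eq hdis hLP, abs_le] at hDL
  have hcU := card_split hdis hUP
  have hcL := card_split hdis hLP
  have hRsplit : (R ∩ U).card + (R ∩ L).card = n := by
    rw [← hR, ← Finset.card_union_of_disjoint]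
    · congr 1
      ext p
      rw [Finset.mem_union, Finset.mem_inter, Finset.mem_inter, hUm, hLm]
      constructor
      · rintro (h | h)
        · exact h.1
        · exact h.1
      · intro h
        rcases lt_or_gt_of_ne (hcne p (Finset.mem_union_left _ h)) with h1 | h1
        · exact Or.inr ⟨h, Finset.mem_union_left _ h, h1⟩
        · exact Or.inl ⟨h, Finset.mem_union_left _ h, h1⟩
    · rw [Finset.disjoint_left]
      intro p h1 h2
      have h3 := ((hUm p).mp (Finset.mem_inter.mp h1).2).2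
      have h4 := ((hLm p).mp (Finset.mem_inter.mp h2).2).2
      linarith
  -- the zigzag
  obtain ⟨A, hA⟩ : ∃ A, A = R ∩ U := ⟨_, rfl⟩
  obtain ⟨Y, hY⟩ : ∃ Y, Y = B ∩ L := ⟨_, rfl⟩
  obtain ⟨G, hGd⟩ : ∃ G, G = B ∩ U := ⟨_, rfl⟩
  rw [← hA, ← hGd] at hDU hcU
  rw [← hY] at hDL hcL
  rw [← hA] at hRsplit
  have hAY : A.card = Y.card + s := by omega
  have hAne : A.Nonempty := by
    rw [← Finset.card_pos]; omega
  have hYpos : 0 < Y.card := by omega
  have hYne : Y.Nonempty := Finset.card_pos.mp hYpos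
  have hAR : A ⊆ R := by rw [hA]; exact Finset.inter_subset_left
  have hYB : Y ⊆ B := by rw [hY]; exact Finset.inter_subset_left
  have hGB : G ⊆ B := by rw [hGd]; exact Finset.inter_subset_left
  have hAS : A ⊆ R ∪ B := hAR.trans Finset.subset_union_left
  have hYS : Y ⊆ R ∪ B := hYB.trans Finset.subset_union_right
  have hGS : G ⊆ R ∪ B := hGB.trans Finset.subset_union_right
  have hup : ∀ p ∈ A ∪ G, c < dt a p := by
    intro p hp
    rcases Finset.mem_union.mp hp with hp | hp
    · rw [hA] at hp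
      exact ((hUm p).mp (Finset.mem_inter.mp hp).2).2
    · rw [hGd] at hp
      exact ((hUm p).mp (Finset.mem_inter.mp hp).2).2
  have hlow : ∀ p ∈ Y, dt a p < c := by
    intro p hp
    rw [hY] at hp
    exact ((hLm p).mp (Finset.mem_inter.mp hp).2).2
  have hsep : ∀ p ∈ A ∪ G, ∀ q ∈ Y, dt a q < dt a p :=
    fun p hp q hq => (hlow q hq).trans (hup p hp)
  have hAG : Disjoint A G := Finset.disjoint_of_subset_left hAR
    (Finset.disjoint_of_subset_right hGB hdis)
  have hfree : ∀ F' ⊆ G, Free A F' → Free R F' := by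
    intro F' h1 h2 r hr
    by_cases hrU : c < dt a r
    · apply h2
      rw [hA, Finset.mem_inter, hUm]
      exact ⟨hr, Finset.mem_union_left _ hr, hrU⟩
    · apply hull_gt (w := a)
      intro y hy
      have := hup y (Finset.mem_union_right _ (h1 hy))
      push Not at hrU
      linarith
  by_contra hcon
  obtain ⟨k, hk⟩ : ∃ k, k = g + K + 1 := ⟨_, rfl⟩
  have hlow0 : Low A G (k * 4 + 1) := by
    intro t' ht'
    by_contra hlt
    apply hcon
    rw [← hU, ← hGd]
    obtain ⟨C, c1, c2, c3⟩ := ht'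
    exact ⟨C, by omega, fun F hF => ⟨(c2 F hF).1, hfree F (c2 F hF).1 (c2 F hF).2⟩, c3⟩
  obtain ⟨r0, q0, s0, hbr⟩ := exists_bridge a a' hAne hYne
    (fun p hp q hq => hsep p (Finset.mem_union_left _ hp) q hq)
  have hr0 : r0 ∈ A := hbr.1
  have hq0 : q0 ∈ Y := hbr.2.1
  have hqr : dt (a' - s0 • a) q0 = dt (a' - s0 • a) r0 := hbr.2.2.1
  have hr0G : r0 ∉ G := fun h => Finset.disjoint_left.mp hAG hr0 h
  obtain ⟨G1, hG1⟩ : ∃ G1, G1 = G.filter
      (fun y => dt (a' - s0 • a) y < dt (a' - s0 • a) r0) := ⟨_, rfl⟩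
  have hG1G : G1 ⊆ G := by rw [hG1]; exact Finset.filter_subset _ _
  have hG1s : ∀ y ∈ G1, dt (a' - s0 • a) y < dt (a' - s0 • a) r0 := by
    intro y hy
    rw [hG1] at hy
    exact (Finset.mem_filter.mp hy).2
  have hF0 : Cov A (G.filter (fun y => ¬ dt (a' - s0 • a) y <
      dt (a' - s0 • a) r0)) 1 := by
    apply Cov.of_free
    refine free_slice (w := a' - s0 • a) (c := dt (a' - s0 • a) r0) (A := A)
      (G := G) (Finset.filter_subset _ _) (fun r hr hr' => absurd hr hr') hbr.2.2.2.1 ?_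
    intro y hy
    obtain ⟨hy1, hy2⟩ := Finset.mem_filter.mp hy
    refine lt_of_le_of_ne (not_lt.mp hy2) ?_
    intro heq
    exact ghost_line hgp hcr (hAS hr0) (hYS hq0) (hGS hy1)
      (hsep r0 (Finset.mem_union_left _ hr0) q0 hq0)
      (fun h => hr0G (h ▸ hy1)) (hsep y (Finset.mem_union_right _ hy1) q0 hq0) hqr heq.symm
  have hsk : s = k + 1 := by omega
  have hG1c : Low A G1 (k * 4) := by
    rw [hG1]
    exact Low.split (fun y => dt (a' - s0 • a) y < dt (a' - s0 • a) r0) hlow0 hF0
  have hAc : (A.erase r0).card = A.card - 1 := Finset.card_erase_of_mem hr0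
  obtain ⟨l, hnd, hmem, hlen, hgood, halt⟩ := (detour34 hgp hcr hAS hGS hAG
    ((A.erase r0).card + Y.card)).1 (A.erase r0) Y G1 r0 q0 s0 k rfl (Finset.erase_subset _ _)
    hr0 (Finset.notMem_erase _ _) hYS hsep hG1G (by rw [Finset.insert_erase hr0]; exact hbr)
    hG1s (by
      intro r hr hrA
      have hrr : r = r0 := by
        by_contra hne
        exact hrA (Finset.mem_erase.mpr ⟨hne, hr⟩)
      rw [hrr]
      exact hull_lt hG1s) (by omega) hG1c
  have hr0B : r0 ∉ B := fun h => Finset.disjoint_left.mp hdis (hAR hr0) h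
  have hr0l : r0 ∉ l := by
    intro h
    rcases Finset.mem_union.mp (hmem r0 h) with h | h
    · rcases Finset.mem_union.mp h with h | h
      · exact (Finset.mem_erase.mp h).1 rfl
      · exact hr0B (hGB (hG1G h))
    · exact hr0B (hYB h)
  have hpath := hasPath_of_list (P := R ∪ B) (R := R) (p := r0) (l := l) (c := true) (hAS hr0)
    Finset.subset_union_left
    (by
      intro q hq
      rcases Finset.mem_union.mp (hmem q hq) with h | h
      · rcases Finset.mem_union.mp h with h | h
        · exact hAS (Finset.mem_erase.mp h).2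
        · exact hGS (hG1G h)
      · exact hYS h)
    (List.nodup_cons.mpr ⟨hr0l, hnd⟩) hgood
    (by
      have := halt R true (fun q hq => by simp [hAR (Finset.mem_erase.mp hq).2])
        (by
          intro q hq
          have hqB : q ∈ B := by
            rcases Finset.mem_union.mp hq with h | h
            · exact hYB h
            · exact hGB (hG1G h)
          simpa using fun h => Finset.disjoint_left.mp hdis h hqB)
      simpa using this)
    (by simp [hAR hr0])
  have hPR : (R ∪ B) \ R = B := by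
    ext q
    rw [Finset.mem_sdiff, Finset.mem_union]
    constructor
    · intro h
      exact h.1.resolve_left h.2
    · intro h
      exact ⟨Or.inr h, fun h' => Finset.disjoint_left.mp hdis h' h⟩
  rw [hPR] at hpath
  have hfin := hG _ hpath
  omega

end Pool.Agent.AltFew
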