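import Pool.Agent.AltFew.Half34
import Pool.Agent.AltHP.GOne

/-! If there is no long path, then the whole set is covered by few monochromatic islands. -/

namespace Pool.Agent.AltFew

open Pool.Agent.AltPath Pool.Agent.AltHP Pool.Agent.HPD79 Pool.Agent.AltALL71

theorem Cov.singletons {A G : Finset (ℝ × ℝ)} (h : Disjoint A G) : Cov A G G.card := by
  classical
  refine ⟨G.image (fun y => {y}), Finset.card_image_le, ?_, ?_⟩
  · intro F hF
    obtain ⟨y, hy, rfl⟩ := Finset.mem_image.mp hF
    refine ⟨Finset.singleton_subset_iff.mpr hy, ?_⟩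
    intro z hz
    rw [Finset.coe_singleton, convexHull_singleton, Set.mem_singleton_iff]
    rintro rfl
    exact Finset.disjoint_left.mp h hz hy
  · intro y hy
    exact ⟨{y}, Finset.mem_image_of_mem _ hy, Finset.mem_singleton_self y⟩

/-- All blue points are covered by few sets whose hulls contain no red point. -/
theorem blue34 {R B : Finset (ℝ × ℝ)} (hdis : Disjoint R B) (hgp : GP (R ∪ B)) {n g K : ℕ}
    (hR : R.card = n) (hB : B.card = n) (hG : ∀ k, HasPath R B k → k ≤ n + g)
    (hK : ∀ H, IsHP79 (R ∪ B) H → |Dc79 R H| ≤ (K : ℤ)) : Cov R B (8 * (g + K + 1)) := by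
  classical
  obtain ⟨s, hs⟩ : ∃ s, s = g + K + 2 := ⟨_, rfl⟩
  rcases Nat.lt_or_ge (s + K) n with hn | hn
  · have hPc : (R ∪ B).card = 2 * n := by
      rw [Finset.card_union_of_disjoint hdis, hR, hB]; ring
    obtain ⟨t, ht⟩ := exists_direction (R ∪ B)
    have ht' : ∀ p ∈ R ∪ B, ∀ q ∈ R ∪ B, p ≠ q → dt (-(1, t)) p ≠ dt (-(1, t)) q := by
      intro p hp q hq hpq h
      rw [dt_neg_left, dt_neg_left] at h
      exact ht p hp q hq hpq (neg_injective h)
    obtain ⟨c, hc, hcne⟩ := exists_threshold (R ∪ B) (fun p => dt (1, t) p) ht (n + s) (by omega)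
    obtain ⟨c', hc', hcne'⟩ := exists_threshold (R ∪ B) (fun p => dt (-(1, t)) p) ht' (n + s)
      (by omega)
    have h1 := half34 hdis hgp hR hB hG hK (a := (1, t)) (a' := (0, 1)) (by simp [cr]) hs hn hc
      hcne
    have h2 := half34 hdis hgp hR hB hG hK (a := -(1, t)) (a' := (0, 1)) (by simp [cr]) hs hn hc'
      hcne'
    refine Cov.sub (Cov.le (Cov.union h1 h2) (by omega)) ?_
    intro p hpB
    have hp : p ∈ R ∪ B := Finset.mem_union_right _ hpB
    by_cases hU : c < dt (1, t) p
    · exact Finset.mem_union_left _ (Finset.mem_inter.mpr ⟨hpB, Finset.mem_filter.mpr ⟨hp, hU⟩⟩)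
    by_cases hU' : c' < dt (-(1, t)) p
    · exact Finset.mem_union_right _ (Finset.mem_inter.mpr ⟨hpB, Finset.mem_filter.mpr ⟨hp, hU'⟩⟩)
    exfalso
    have hd : Disjoint ((R ∪ B).filter (fun p => c < dt (1, t) p))
        ((R ∪ B).filter (fun p => c' < dt (-(1, t)) p)) := by
      rw [Finset.disjoint_left]
      intro q h3 h4
      have h5 := (Finset.mem_filter.mp h3).2
      have h6 := (Finset.mem_filter.mp h4).2
      rw [dt_neg_left] at h6 hU'
      linarith
    have h3 := Finset.card_le_card (Finset.union_subset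
      (Finset.filter_subset (fun p => c < dt (1, t) p) (R ∪ B))
      (Finset.filter_subset (fun p => c' < dt (-(1, t)) p) (R ∪ B)))
    rw [Finset.card_union_of_disjoint hd, hc, hc'] at h3
    omega
  · refine (Cov.singletons hdis).le ?_
    omega

theorem path_card34 {R B : Finset (ℝ × ℝ)} {k : ℕ} (h : HasPath R B k) : k ≤ (R ∪ B).card := by
  classical
  obtain ⟨v, h1, h2, -⟩ := h
  have := Finset.card_le_card_of_injOn v (s := Finset.range k) (t := R ∪ B)
    (fun i hi => h1 i (Finset.mem_range.mp hi))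
    (fun i hi j hj hij => h2 i j (by simpa using hi) (by simpa using hj) hij)
  simpa using this

/-- The cover of the blue points in terms of the excess only. -/
theorem color34 {R B : Finset (ℝ × ℝ)} (hdis : Disjoint R B) (hgp : GP (R ∪ B)) {n g j : ℕ}
    (hR : R.card = n) (hB : B.card = n) (hG : ∀ k, HasPath R B k → k ≤ n + g)
    (hj : 2 * n ≤ 2 ^ j * (g + 1)) :
    Cov R B (8 * (g + (2 * (j * (g + 1 + 1) + (g + 1))) + 1)) := by
  classical
  have hPR : (R ∪ B) \ R = B := by
    ext q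
    rw [Finset.mem_sdiff, Finset.mem_union]
    constructor
    · intro h
      exact h.1.resolve_left h.2
    · intro h
      exact ⟨Or.inr h, fun h' => Finset.disjoint_left.mp hdis h' h⟩
  have hPc : (R ∪ B).card = 2 * n := by
    rw [Finset.card_union_of_disjoint hdis, hR, hB]; ring
  refine blue34 hdis hgp hR hB hG (fun H hH => ?_)
  refine disc34 (g := g + 1) hgp Finset.subset_union_left hPc hR (by omega) hj ?_ hH
  intro h
  rw [hPR] at h
  have := hG _ h
  omega

theorem logb_le_self34 {z : ℝ} (hz : 0 < z) : Real.logb 2 z ≤ z := by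
  have h2 : (0.5 : ℝ) < Real.log 2 := by
    have := Real.log_two_gt_d9; linarith
  have h3 : Real.log 2 < 1 := by
    have := Real.log_two_lt_d9; linarith
  have h1 : Real.log z ≤ z / 2 - 1 + Real.log 2 := by
    have h := Real.log_le_sub_one_of_pos (show 0 < z / 2 by positivity)
    rw [Real.log_div hz.ne' (by norm_num)] at h
    linarith
  rw [Real.logb, div_le_iff₀ (by linarith)]
  nlinarith

theorem num34 {n t g : ℝ} (ht : 0 < t) (ht2 : t ≤ 2 * n) (hg : 0 < g)
    (h : t ≤ 192 * (g * Real.logb 2 (4 * n / g))) : t / (4096 * Real.logb 2 (4 * n / t)) ≤ g := by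
  have hn : 0 < n := by linarith
  obtain ⟨l, hl⟩ : ∃ l, l = Real.logb 2 (4 * n / t) := ⟨_, rfl⟩
  have hl1 : 1 ≤ l := by
    rw [hl, Real.le_logb_iff_rpow_le (by norm_num) (by positivity), Real.rpow_one,
      le_div_iff₀ ht]
    linarith
  rw [← hl]
  by_contra hcon
  push Not at hcon
  obtain ⟨y, hy⟩ : ∃ y, y = t / (4096 * l) := ⟨_, rfl⟩
  rw [← hy] at hcon
  have hy0 : 0 < y := by rw [hy]; positivity
  have hyt : 4096 * l * y = t := by
    rw [hy]; field_simp
  have e1 : Real.logb 2 (4 * n / g) = Real.logb 2 (4 * n / y) + Real.logb 2 (y / g) := by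
    rw [← Real.logb_mul (by positivity) (by positivity)]
    congr 1
    field_simp
  have e2 : Real.logb 2 (4 * n / y) = l + 12 + Real.logb 2 l := by
    have h12 : Real.logb 2 4096 = 12 := by
      rw [show (4096 : ℝ) = 2 ^ (12 : ℕ) by norm_num, Real.logb_pow, Real.logb_self_eq_one (by norm_num)]
      norm_num
    rw [hl, ← h12, ← Real.logb_mul (by positivity) (by norm_num), ← hl,
      ← Real.logb_mul (by positivity) (by positivity)]
    congr 1
    rw [← hyt]
    field_simp
  have h3 : g * Real.logb 2 (y / g) ≤ y := by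
    have h4 := mul_le_mul_of_nonneg_left (logb_le_self34 (show 0 < y / g by positivity)) hg.le
    have h5 : g * (y / g) = y := by field_simp
    linarith
  have h4 := logb_le_self34 (show 0 < l by linarith)
  have h5 : g * Real.logb 2 (4 * n / y) ≤ y * (2 * l + 12) := by
    have h6 : g * Real.logb 2 (4 * n / y) ≤ g * (2 * l + 12) :=
      mul_le_mul_of_nonneg_left (by rw [e2]; linarith) hg.le
    have h7 : g * (2 * l + 12) ≤ y * (2 * l + 12) :=
      mul_le_mul_of_nonneg_right hcon.le (by linarith)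
    linarith
  have h6 : g * Real.logb 2 (4 * n / g) ≤ y * (2 * l + 13) := by
    rw [e1, mul_add]
    linarith
  have h7 : y * (2 * l + 13) ≤ y * (15 * l) := mul_le_mul_of_nonneg_left (by linarith) hy0.le
  have h8 : 0 < y * l := by positivity
  nlinarith

/-- **Few islands.** If the set is not covered by fewer than t monochromatic islands, then there is
a path with n + t / (4096 log2 (4 n / t)) vertices. -/
theorem islands34 {R B : Finset (ℝ × ℝ)} (hdis : Disjoint R B) (hgp : GP (R ∪ B)) {n t : ℕ}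
    (hR : R.card = n) (hB : B.card = n) (ht : 1 ≤ t)
    (hcov : ∀ C : Finset (Finset (ℝ × ℝ)),
      (∀ F ∈ C, (F ⊆ R ∧ ∀ q ∈ B, q ∉ convexHull ℝ (F : Set (ℝ × ℝ))) ∨
        (F ⊆ B ∧ ∀ q ∈ R, q ∉ convexHull ℝ (F : Set (ℝ × ℝ)))) →
      (∀ p ∈ R ∪ B, ∃ F ∈ C, p ∈ F) → t ≤ C.card) :
    ∃ k : ℕ, HasPath R B k ∧ (n : ℝ) + t / (4096 * Real.logb 2 (4 * n / t)) ≤ k := by
  classical
  have hPc : (R ∪ B).card = 2 * n := by
    rw [Finset.card_union_of_disjoint hdis, hR, hB]; ring
  -- the covers of the two colours together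
  have join : ∀ a b, Cov R B a → Cov B R b → t ≤ a + b := by
    intro a b h1 h2
    obtain ⟨C, c1, c2, c3⟩ := h1
    obtain ⟨D, d1, d2, d3⟩ := h2
    have h := hcov (C ∪ D) (by
      intro F hF
      rcases Finset.mem_union.mp hF with h | h
      · exact Or.inr ⟨(c2 F h).1, (c2 F h).2⟩
      · exact Or.inl ⟨(d2 F h).1, (d2 F h).2⟩) (by
      intro p hp
      rcases Finset.mem_union.mp hp with h | h
      · obtain ⟨F, hF, hy⟩ := d3 p h
        exact ⟨F, Finset.mem_union_right _ hF, hy⟩
      · obtain ⟨F, hF, hy⟩ := c3 p h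
        exact ⟨F, Finset.mem_union_left _ hF, hy⟩)
    have := Finset.card_union_le C D
    omega
  have ht2 : t ≤ 2 * n := by
    have := join _ _ (Cov.singletons hdis) (Cov.singletons hdis.symm)
    omega
  have hn : 1 ≤ n := by omega
  obtain ⟨k, hk, hmax⟩ := exists_longest (R := R) (B := B)
  have hk1 := hmax _ (one_more hdis hgp hn hR hB)
  obtain ⟨g, rfl⟩ : ∃ g, k = n + g := ⟨k - n, by omega⟩
  have hk2 := path_card34 hk
  rw [hPc] at hk2
  have hg1 : 1 ≤ g := by omega
  have hgn : g ≤ n := by omega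
  have hnr : (0 : ℝ) < n := by exact_mod_cast hn
  have hgr : (1 : ℝ) ≤ g := by exact_mod_cast hg1
  have hgnr : (g : ℝ) ≤ n := by exact_mod_cast hgn
  refine ⟨n + g, hk, ?_⟩
  obtain ⟨x, hx⟩ : ∃ x, x = Real.logb 2 (4 * n / g) := ⟨_, rfl⟩
  have hx2 : 2 ≤ x := by
    rw [hx, Real.le_logb_iff_rpow_le (by norm_num) (by positivity),
      le_div_iff₀ (by linarith)]
    have : (2 : ℝ) ^ (2 : ℝ) = 4 := by norm_num
    rw [this]
    linarith
  obtain ⟨j, hj⟩ : ∃ j, j = ⌊x⌋₊ := ⟨_, rfl⟩
  have hj1 : (j : ℝ) ≤ x := by rw [hj]; exact Nat.floor_le (by linarith)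
  have hj2 : x < j + 1 := by rw [hj]; exact Nat.lt_floor_add_one x
  have hj3 : 1 ≤ j := by
    rw [hj]
    exact Nat.le_floor (by push_cast; linarith)
  have hj4 : 2 * n ≤ 2 ^ j * (g + 1) := by
    have h1 : 4 * (n : ℝ) / g < 2 ^ (j + 1) := by
      have h2 := (Real.logb_lt_iff_lt_rpow (b := 2) (x := 4 * (n : ℝ) / g) (y := (j : ℝ) + 1)
        (by norm_num) (by positivity)).mp (by rw [← hx]; exact hj2)
      have h3 : (2 : ℝ) ^ ((j : ℝ) + 1) = 2 ^ (j + 1) := by
        rw [← Real.rpow_natCast]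
        push_cast
        rfl
      rwa [h3] at h2
    rw [div_lt_iff₀ (by linarith), pow_succ] at h1
    have h4 : (2 * n : ℝ) ≤ 2 ^ j * (g + 1) := by
      have : (0 : ℝ) < 2 ^ j := by positivity
      nlinarith
    exact_mod_cast h4
  have hgp' : GP (B ∪ R) := by rw [Finset.union_comm]; exact hgp
  have h1 := color34 hdis hgp hR hB hmax hj4
  have h2 := color34 hdis.symm hgp' hB hR (fun k hk => hmax k (HasPath.swap hdis.symm hk)) hj4
  have h3 := join _ _ h1 h2
  have h4 : t ≤ 192 * (g * j) := by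
    have h5 : j ≤ g * j := Nat.le_mul_of_pos_left _ (by omega)
    have h6 : g ≤ g * j := Nat.le_mul_of_pos_right _ (by omega)
    have h7 : j * (g + 1 + 1) = g * j + 2 * j := by ring
    omega
  have h5 : (t : ℝ) ≤ 192 * (g * x) := by
    have h6 : (t : ℝ) ≤ 192 * (g * j) := by exact_mod_cast h4
    have h7 : (g : ℝ) * j ≤ g * x := mul_le_mul_of_nonneg_left hj1 (by linarith)
    linarith
  have h6 := num34 (n := n) (t := t) (g := g) (by exact_mod_cast ht) (by exact_mod_cast ht2)
    (by linarith) (by rw [← hx]; exact h5)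
  push_cast
  linarith

end Pool.Agent.AltFew
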