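import Pool.Agent.AltFew.Defs55

/-! The numerical estimate which turns the recursion into an explicit bound. -/

namespace Pool.Agent.AltFew

theorem Cb_le79 {N l : ℕ} {x : ℝ} (hx : 1 ≤ x) :
    (Cb N l : ℝ) ≤ x ^ l * Real.exp (N / x) := by
  have hx0 : 0 < x := by linarith
  have h0 : ∀ i, 0 ≤ x ^ l * ((1 / x) ^ i * (N.choose i : ℝ)) := by
    intro i
    positivity
  have h1 : (Cb N l : ℝ) ≤ x ^ l * (1 / x + 1) ^ N := by
    have h2 : (1 / x + 1) ^ N
        = ∑ i ∈ Finset.range (N + 1), (1 / x) ^ i * (N.choose i : ℝ) := by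
      rw [add_pow]
      apply Finset.sum_congr rfl
      intro i _
      rw [one_pow, mul_one]
    rw [h2, Finset.mul_sum]
    unfold Cb
    push_cast
    have h3 : ∑ i ∈ Finset.range (l + 1), (N.choose i : ℝ)
        ≤ ∑ i ∈ Finset.range (l + 1), x ^ l * ((1 / x) ^ i * (N.choose i : ℝ)) := by
      apply Finset.sum_le_sum
      intro i hi
      have hil : i ≤ l := Nat.lt_succ_iff.mp (Finset.mem_range.mp hi)
      have e : x ^ l * ((1 / x) ^ i * (N.choose i : ℝ))
          = x ^ (l - i) * (N.choose i : ℝ) := by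
        have e1 : x ^ l = x ^ (l - i) * x ^ i := by
          rw [← pow_add]
          congr 1
          omega
        have e2 : x ^ i * (1 / x) ^ i = 1 := by
          rw [← mul_pow, mul_one_div_cancel (ne_of_gt hx0), one_pow]
        calc x ^ l * ((1 / x) ^ i * (N.choose i : ℝ))
            = x ^ (l - i) * (x ^ i * (1 / x) ^ i) * (N.choose i : ℝ) := by
              rw [e1]
              ring
          _ = x ^ (l - i) * (N.choose i : ℝ) := by rw [e2, mul_one]
      rw [e]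
      have h4 : 1 ≤ x ^ (l - i) := one_le_pow₀ hx
      have h5 : (0 : ℝ) ≤ (N.choose i : ℝ) := Nat.cast_nonneg _
      nlinarith
    have h4 : ∑ i ∈ Finset.range (l + 1), x ^ l * ((1 / x) ^ i * (N.choose i : ℝ))
        ≤ ∑ i ∈ Finset.range (l + 1 + (N + 1)), x ^ l * ((1 / x) ^ i * (N.choose i : ℝ)) := by
      apply Finset.sum_le_sum_of_subset_of_nonneg
      · exact Finset.range_mono (by omega)
      · intro i _ _
        exact h0 i
    have h5 : ∑ i ∈ Finset.range (N + 1), x ^ l * ((1 / x) ^ i * (N.choose i : ℝ))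
        = ∑ i ∈ Finset.range (l + 1 + (N + 1)), x ^ l * ((1 / x) ^ i * (N.choose i : ℝ)) := by
      apply Finset.sum_subset
      · exact Finset.range_mono (by omega)
      · intro i _ hi
        have hi' : N < i := by
          by_contra h
          exact hi (Finset.mem_range.mpr (by omega))
        rw [Nat.choose_eq_zero_of_lt hi']
        simp
    linarith
  have h2 : (1 / x + 1) ^ N ≤ Real.exp (N / x) := by
    have h3 : (1 / x + 1) ^ N ≤ (Real.exp (1 / x)) ^ N := by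
      apply pow_le_pow_left₀ (by positivity)
      exact Real.add_one_le_exp (1 / x)
    have h4 : (Real.exp (1 / x)) ^ N = Real.exp (N / x) := by
      rw [← Real.exp_nat_mul]
      congr 1
      ring
    rw [h4] at h3
    exact h3
  calc (Cb N l : ℝ) ≤ x ^ l * (1 / x + 1) ^ N := h1
    _ ≤ x ^ l * Real.exp (N / x) := by
      apply mul_le_mul_of_nonneg_left h2 (by positivity)

theorem Phi_le79 {n g s K : ℕ} (hg : 1 ≤ g) (hgn : g ≤ n) :
    (Phi n s K : ℝ) ≤ Real.exp ((4 * ((s : ℝ) + 2 * K + 1) + 1) * Real.log (2 * n / g) + g) := by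
  have hg0 : (0 : ℝ) < g := by exact_mod_cast hg
  have hgn' : (g : ℝ) ≤ n := by exact_mod_cast hgn
  have hn0 : (0 : ℝ) < n := by linarith
  obtain ⟨x, hx⟩ : ∃ x : ℝ, x = 2 * n / g := ⟨_, rfl⟩
  have hx2 : 2 ≤ x := by
    rw [hx, le_div_iff₀ hg0]
    linarith
  have hx0 : 0 < x := by linarith
  have hNx : ((2 * n : ℕ) : ℝ) / x = g := by
    rw [hx]
    push_cast
    field_simp
  rw [← hx]
  obtain ⟨T, hT⟩ : ∃ T : ℕ, T = s + 2 * K + 1 := ⟨_, rfl⟩
  have hTr : (s : ℝ) + 2 * K + 1 = T := by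
    rw [hT]
    push_cast
    ring
  rw [hTr]
  have h1 : (Phi n s K : ℝ) ≤ ∑ k ∈ Finset.range (T + 1), x ^ (3 * T + 1) * Real.exp g := by
    unfold Phi
    push_cast
    have e : s + 2 * K + 2 = T + 1 := by omega
    rw [e]
    apply Finset.sum_le_sum
    intro k hk
    have hkT : k ≤ T := Nat.lt_succ_iff.mp (Finset.mem_range.mp hk)
    have h2 := Cb_le79 (N := 2 * n) (l := 3 * k + 1) (x := x) (by linarith)
    rw [hNx] at h2
    refine h2.trans ?_
    apply mul_le_mul_of_nonneg_right _ (Real.exp_pos _).le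
    exact pow_le_pow_right₀ (by linarith) (by omega)
  rw [Finset.sum_const, Finset.card_range, nsmul_eq_mul] at h1
  have h2 : ((T + 1 : ℕ) : ℝ) ≤ x ^ T := by
    have h3 : T + 1 ≤ 2 ^ T := Nat.lt_two_pow_self
    have h4 : ((T + 1 : ℕ) : ℝ) ≤ (2 : ℝ) ^ T := by exact_mod_cast h3
    refine h4.trans ?_
    exact pow_le_pow_left₀ (by norm_num) hx2 T
  have h3 : x ^ T * (x ^ (3 * T + 1) * Real.exp g)
      = Real.exp ((4 * (T : ℝ) + 1) * Real.log x + g) := by
    have e1 : x ^ T * (x ^ (3 * T + 1) * Real.exp g) = x ^ (4 * T + 1) * Real.exp g := by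
      rw [← mul_assoc, ← pow_add]
      congr 2
      omega
    have e2 : x ^ (4 * T + 1) = Real.exp ((4 * (T : ℝ) + 1) * Real.log x) := by
      have e3 : ((4 * T + 1 : ℕ) : ℝ) = 4 * (T : ℝ) + 1 := by
        push_cast
        ring
      rw [← e3, Real.exp_nat_mul, Real.exp_log hx0]
    rw [e1, e2, ← Real.exp_add]
  rw [← h3]
  refine h1.trans ?_
  apply mul_le_mul_of_nonneg_right h2
  positivity

theorem num79 {n g j K s : ℕ} (hg : 1 ≤ g) (hgn : g ≤ n) (hj : 2 ^ j * g < 4 * n)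
    (hK : K = 2 * (j * (g + 1) + g)) (hs : s = 3 * K + g) :
    2 * ((Phi n s K : ℕ) : ℝ) ^ j * 4 ^ s
      ≤ Real.exp (2000 * g * Real.log (2 * n / g) ^ 3) := by
  have hg0 : (0 : ℝ) < g := by exact_mod_cast hg
  have hg1 : (1 : ℝ) ≤ g := by exact_mod_cast hg
  have hgn' : (g : ℝ) ≤ n := by exact_mod_cast hgn
  have hn0 : (0 : ℝ) < n := by linarith
  have hP := Phi_le79 (s := s) (K := K) hg hgn
  obtain ⟨x, hx⟩ : ∃ x : ℝ, x = 2 * n / g := ⟨_, rfl⟩
  have hx2 : 2 ≤ x := by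
    rw [hx, le_div_iff₀ hg0]
    linarith
  have hx0 : 0 < x := by linarith
  rw [← hx] at hP ⊢
  obtain ⟨L, hL⟩ : ∃ L : ℝ, L = Real.log x := ⟨_, rfl⟩
  rw [← hL] at hP ⊢
  have hl2 : (0.6931471803 : ℝ) < Real.log 2 := Real.log_two_gt_d9
  have hl2' : Real.log 2 < 0.6931471808 := Real.log_two_lt_d9
  have hL1 : Real.log 2 ≤ L := by
    rw [hL]
    exact Real.log_le_log (by norm_num) hx2
  have hL2 : (0.6931 : ℝ) ≤ L := by linarith
  have hL0 : 0 < L := by linarith
  -- the number of halvings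
  have hj1 : (j : ℝ) ≤ 3 * L := by
    have h1 : (2 : ℝ) ^ j * g < 4 * n := by exact_mod_cast hj
    have h2 : (2 : ℝ) ^ j < 2 * x := by
      rw [hx, show (2 : ℝ) * (2 * n / g) = (4 * n) / g by ring, lt_div_iff₀ hg0]
      exact h1
    have h3 : Real.log ((2 : ℝ) ^ j) < Real.log (2 * x) :=
      Real.log_lt_log (by positivity) h2
    rw [Real.log_pow, Real.log_mul (by norm_num) (ne_of_gt hx0), ← hL] at h3
    have h4 : (j : ℝ) * Real.log 2 < 2 * L := by linarith
    by_contra h5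
    have h6 : 3 * L < (j : ℝ) := not_le.mp h5
    have h7 : 3 * L * Real.log 2 < (j : ℝ) * Real.log 2 :=
      mul_lt_mul_of_pos_right h6 (by linarith)
    nlinarith
  have hj0 : (0 : ℝ) ≤ j := Nat.cast_nonneg j
  have hKr : (K : ℝ) = 2 * (j * (g + 1) + g) := by
    rw [hK]
    push_cast
    ring
  have hsr : (s : ℝ) = 3 * K + g := by
    rw [hs]
    push_cast
    ring
  have hK2 : (K : ℝ) ≤ g * (4 * j + 2) := by
    rw [hKr]
    nlinarith
  have hK3 : (K : ℝ) ≤ g * (15 * L) := by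
    have : (g : ℝ) * (4 * j + 2) ≤ g * (15 * L) := by
      apply mul_le_mul_of_nonneg_left _ hg0.le
      linarith
    linarith
  have hgL : (g : ℝ) ≤ g * (1.5 * L) := by
    have : (g : ℝ) * 1 ≤ g * (1.5 * L) := by
      apply mul_le_mul_of_nonneg_left _ hg0.le
      linarith
    linarith
  have hT1 : (4 * ((s : ℝ) + 2 * K + 1) + 1) ≤ g * (320 * L) := by
    rw [hsr]
    nlinarith
  have hP2 : (Phi n s K : ℝ) ≤ Real.exp (323 * g * L ^ 2) := by
    refine hP.trans (Real.exp_le_exp.mpr ?_)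
    have h1 : (4 * ((s : ℝ) + 2 * K + 1) + 1) * L ≤ g * (320 * L) * L :=
      mul_le_mul_of_nonneg_right hT1 hL0.le
    have h2 : (g : ℝ) ≤ g * (3 * L ^ 2) := by
      have h3 : (1 : ℝ) ≤ 3 * L ^ 2 := by nlinarith
      have : (g : ℝ) * 1 ≤ g * (3 * L ^ 2) := mul_le_mul_of_nonneg_left h3 hg0.le
      linarith
    nlinarith
  have hP3 : ((Phi n s K : ℕ) : ℝ) ^ j ≤ Real.exp (969 * g * L ^ 3) := by
    have h1 : ((Phi n s K : ℕ) : ℝ) ^ j ≤ (Real.exp (323 * g * L ^ 2)) ^ j :=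
      pow_le_pow_left₀ (Nat.cast_nonneg _) hP2 j
    refine h1.trans ?_
    rw [← Real.exp_nat_mul]
    apply Real.exp_le_exp.mpr
    have h2 : (j : ℝ) * (323 * g * L ^ 2) ≤ 3 * L * (323 * g * L ^ 2) :=
      mul_le_mul_of_nonneg_right hj1 (by positivity)
    nlinarith
  have hL3 : (1 : ℝ) ≤ 3.1 * L ^ 3 := by
    have h1 : (0.6931 : ℝ) ^ 3 ≤ L ^ 3 := pow_le_pow_left₀ (by norm_num) hL2 3
    nlinarith
  have hs4 : (4 : ℝ) ^ s ≤ Real.exp (150 * g * L ^ 3) := by
    have h1 : (4 : ℝ) ≤ Real.exp 1.4 := by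
      have h2 : (4 : ℝ) = Real.exp (2 * Real.log 2) := by
        rw [two_mul, Real.exp_add, Real.exp_log (by norm_num)]
        norm_num
      rw [h2]
      apply Real.exp_le_exp.mpr
      linarith
    have h2 : (4 : ℝ) ^ s ≤ (Real.exp 1.4) ^ s := pow_le_pow_left₀ (by norm_num) h1 s
    refine h2.trans ?_
    rw [← Real.exp_nat_mul]
    apply Real.exp_le_exp.mpr
    have h3 : (s : ℝ) ≤ g * (46.5 * L) := by
      rw [hsr]
      linarith
    have h4 : L ≤ 2.1 * L ^ 3 := by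
      have h5 : (1 : ℝ) ≤ 2.1 * L ^ 2 := by nlinarith
      nlinarith
    have h5 : (g : ℝ) * (46.5 * L) ≤ g * (46.5 * (2.1 * L ^ 3)) := by
      apply mul_le_mul_of_nonneg_left _ hg0.le
      linarith
    nlinarith
  have h2e : (2 : ℝ) ≤ Real.exp (3 * g * L ^ 3) := by
    have h1 : (2 : ℝ) = Real.exp (Real.log 2) := (Real.exp_log (by norm_num)).symm
    rw [h1]
    apply Real.exp_le_exp.mpr
    have h2 : (1 : ℝ) ≤ g * (3.1 * L ^ 3) := by nlinarith
    nlinarith
  have h3 : 2 * ((Phi n s K : ℕ) : ℝ) ^ j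
      ≤ Real.exp (3 * g * L ^ 3) * Real.exp (969 * g * L ^ 3) :=
    mul_le_mul h2e hP3 (by positivity) (Real.exp_pos _).le
  have h4 : 2 * ((Phi n s K : ℕ) : ℝ) ^ j * 4 ^ s
      ≤ Real.exp (3 * g * L ^ 3) * Real.exp (969 * g * L ^ 3) * Real.exp (150 * g * L ^ 3) :=
    mul_le_mul h3 hs4 (by positivity) (by positivity)
  refine h4.trans ?_
  rw [← Real.exp_add, ← Real.exp_add]
  apply Real.exp_le_exp.mpr
  have h5 : 0 ≤ (g : ℝ) * L ^ 3 := by positivity
  nlinarith

end Pool.Agent.AltFew
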