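import Mathlib

/-! The recursion for the numbers of restrictions of a family of sets to a chain of sets. -/

namespace Pool.Agent.AltFew

/-- If the number of restrictions of F to I m is at most Φ times the number of restrictions
to I m', m' about m / 2 - s, then there are at most Φ ^ j * 4 ^ s restrictions to I m,
m < 2 ^ j * (2 s). -/
theorem rec65 {α : Type*} [DecidableEq α] (F : Finset (Finset α)) (I : ℕ → Finset α)
    {M s Φ : ℕ} (hΦ : 1 ≤ Φ) (hI : ∀ m, m < M → (I m).card ≤ m)
    (hstep : ∀ m m', m < M → 2 * (m' + s) ≤ m → m ≤ 2 * (m' + s) + 1 →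
      (F.image (fun R => R ∩ I m)).card ≤ Φ * (F.image (fun R => R ∩ I m')).card) (j : ℕ) :
    ∀ m, m < M → m < 2 ^ j * (2 * s) →
      (F.image (fun R => R ∩ I m)).card ≤ Φ ^ j * 4 ^ s := by
  have h0 : ∀ m, m < M → m < 2 * s → (F.image (fun R => R ∩ I m)).card ≤ 4 ^ s := by
    intro m hm hms
    have h1 : (F.image (fun R => R ∩ I m)).card ≤ 2 ^ (I m).card := by
      rw [← Finset.card_powerset]
      refine Finset.card_le_card ?_
      intro J hJ
      obtain ⟨R, -, rfl⟩ := Finset.mem_image.mp hJ
      exact Finset.mem_powerset.mpr Finset.inter_subset_right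
    refine h1.trans ?_
    have h2 : (I m).card ≤ 2 * s := (hI m hm).trans hms.le
    calc 2 ^ (I m).card ≤ 2 ^ (2 * s) := Nat.pow_le_pow_right (by norm_num) h2
      _ = 4 ^ s := by rw [pow_mul]; norm_num
  induction j with
  | zero =>
    intro m hm hms
    rw [pow_zero, one_mul] at hms ⊢
    exact h0 m hm hms
  | succ j ih =>
    intro m hm hms
    rcases lt_or_ge m (2 * s) with h | h
    · exact (h0 m hm h).trans (Nat.le_mul_of_pos_left _ (pow_pos (by omega) _))
    · have h3 : m / 2 < 2 ^ j * (2 * s) := by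
        rw [Nat.div_lt_iff_lt_mul (by norm_num)]
        rw [pow_succ] at hms
        linarith
      have h4 := ih (m / 2 - s) (by omega) (by omega)
      calc (F.image (fun R => R ∩ I m)).card
          ≤ Φ * (F.image (fun R => R ∩ I (m / 2 - s))).card :=
            hstep m (m / 2 - s) hm (by omega) (by omega)
        _ ≤ Φ * (Φ ^ j * 4 ^ s) := Nat.mul_le_mul_left _ h4
        _ = Φ ^ (j + 1) * 4 ^ s := by rw [pow_succ]; ring

end Pool.Agent.AltFew
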