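import Pool.Agent.AltFew.Hull84
import Pool.Agent.AltFew.Comb47
import Pool.Agent.AltFew.Rec65
import Pool.Agent.AltFew.Disc34
import Pool.Agent.AltFew.Num79

/-! Few exceptional colourings: the assembly. -/

namespace Pool.Agent.AltFew

open Pool.Agent.AltPath Pool.Agent.AltHP Pool.Agent.AltALL71 Pool.Agent.HPD79

theorem one_le_Phi (n s K : ℕ) : 1 ≤ Phi n s K := by
  have h0 : 0 ∈ Finset.range (s + 2 * K + 2) := Finset.mem_range.mpr (by omega)
  have h1 : Cb (2 * n) (3 * 0 + 1) ≤ Phi n s K := by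
    unfold Phi
    exact Finset.single_le_sum (f := fun k => Cb (2 * n) (3 * k + 1))
      (fun i _ => Nat.zero_le _) h0
  have h2 : (2 * n).choose 0 ≤ Cb (2 * n) (3 * 0 + 1) := choose_le_Cb (by omega)
  simp only [Nat.choose_zero_right] at h2
  omega

open scoped Classical in
/-- The exceptional colourings with v red. -/
theorem red55 {P : Finset (ℝ × ℝ)} {n g j K s : ℕ} {v w0 w1 : ℝ × ℝ} {I : ℕ → Finset (ℝ × ℝ)}
    {c : ℕ → ℝ} (hgp : GP P) (hP : P.card = 2 * n) (h : HullOrd P v w0 w1 I c)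
    (hg : 1 ≤ g) (hgn : g ≤ n) (hj : 2 * n ≤ 2 ^ j * g) (hKe : K = 2 * (j * (g + 1) + g))
    (hs : s = 3 * K + g) (F : Finset (Finset (ℝ × ℝ)))
    (hF : ∀ R ∈ F, R ⊆ P ∧ R.card = n ∧ v ∈ R ∧ ¬ HasPath R (P \ R) (n + g)) :
    F.card ≤ Phi n s K ^ j * 4 ^ s := by
  have hK : ∀ R ∈ F, ∀ H, IsHP79 P H → |Dc79 R H| ≤ (K : ℤ) := by
    intro R hR H hH
    obtain ⟨h1, h2, -, h4⟩ := hF R hR
    rw [hKe]
    exact disc34 hgp h1 hP h2 hg hj h4 hH
  have hinj : Set.InjOn (fun R : Finset (ℝ × ℝ) => R ∩ I (2 * n - 1)) (F : Set (Finset (ℝ × ℝ))) := by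
    intro R hR R' hR' heq
    have hI : I (2 * n - 1) = P.erase v := by rw [← hP]; exact h.full
    simp only [hI] at heq
    obtain ⟨h1, -, h3, -⟩ := hF R hR
    obtain ⟨h1', -, h3', -⟩ := hF R' hR'
    ext q
    by_cases hq : q = v
    · subst hq; exact ⟨fun _ => h3', fun _ => h3⟩
    · have e : q ∈ R ∩ P.erase v ↔ q ∈ R' ∩ P.erase v := by rw [heq]
      simp only [Finset.mem_inter, Finset.mem_erase] at e
      constructor
      · intro hqR
        exact (e.mp ⟨hqR, hq, h1 hqR⟩).1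
      · intro hqR
        exact (e.mpr ⟨hqR, hq, h1' hqR⟩).1
  have hcard : F.card = (F.image (fun R => R ∩ I (2 * n - 1))).card :=
    (Finset.card_image_of_injOn hinj).symm
  rw [hcard]
  refine rec65 F I (M := 2 * n) (one_le_Phi n s K) (fun m hm => (h.card m (by omega)).le)
    (fun m m' hm h1 h2 => step47 hgp hP h F hF hK hs hm h1 h2) j (2 * n - 1) (by omega) ?_
  have h3 : 2 ^ j * g ≤ 2 ^ j * (2 * s) := Nat.mul_le_mul_left _ (by omega)
  omega

open scoped Classical in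
/-- **Few exceptional colourings.** -/
theorem main55 {P : Finset (ℝ × ℝ)} {n g : ℕ} (hgp : GP P) (hP : P.card = 2 * n) (hg : 1 ≤ g)
    (hgn : g ≤ n) (F : Finset (Finset (ℝ × ℝ)))
    (hF : ∀ R ∈ F, R ⊆ P ∧ R.card = n ∧ ¬ HasPath R (P \ R) (n + g)) :
    (F.card : ℝ) ≤ Real.exp (2000 * g * Real.log (2 * n / g) ^ 3) := by
  have hne : P.Nonempty := Finset.card_pos.mp (by omega)
  obtain ⟨v, w0, w1, I, c, h⟩ := exists_hullOrd hgp hne
  have hex : ∃ j : ℕ, 2 * n ≤ 2 ^ j * g := by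
    refine ⟨2 * n, ?_⟩
    have h1 : 2 * n < 2 ^ (2 * n) := Nat.lt_two_pow_self
    have h2 : 2 ^ (2 * n) * 1 ≤ 2 ^ (2 * n) * g := Nat.mul_le_mul_left _ hg
    omega
  obtain ⟨j, hj, hj'⟩ : ∃ j : ℕ, 2 * n ≤ 2 ^ j * g ∧ 2 ^ j * g < 4 * n := by
    refine ⟨Nat.find hex, Nat.find_spec hex, ?_⟩
    rcases Nat.eq_zero_or_pos (Nat.find hex) with h0 | h0
    · rw [h0]; omega
    · have h1 : ¬ 2 * n ≤ 2 ^ (Nat.find hex - 1) * g := Nat.find_min hex (by omega)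
      have h2 : 2 ^ (Nat.find hex) = 2 ^ (Nat.find hex - 1) * 2 := by
        rw [← pow_succ]
        congr 1
        omega
      rw [h2]
      rw [not_le] at h1
      nlinarith
  obtain ⟨K, hK⟩ : ∃ K, K = 2 * (j * (g + 1) + g) := ⟨_, rfl⟩
  obtain ⟨s, hs⟩ : ∃ s, s = 3 * K + g := ⟨_, rfl⟩
  have hnum := num79 hg hgn hj' hK hs
  set F1 := F.filter (fun R => v ∈ R) with hF1
  set F2 := F.filter (fun R => ¬ v ∈ R) with hF2
  have hsum : F1.card + F2.card = F.card := Finset.card_filter_add_card_filter_not _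
  have hb1 : F1.card ≤ Phi n s K ^ j * 4 ^ s := by
    refine red55 hgp hP h hg hgn hj hK hs F1 ?_
    intro R hR
    obtain ⟨hR1, hR2⟩ := Finset.mem_filter.mp hR
    obtain ⟨h1, h2, h3⟩ := hF R hR1
    exact ⟨h1, h2, hR2, h3⟩
  have hb2 : F2.card ≤ Phi n s K ^ j * 4 ^ s := by
    have hinj : Set.InjOn (fun R : Finset (ℝ × ℝ) => P \ R) (F2 : Set (Finset (ℝ × ℝ))) := by
      intro R hR R' hR' heq
      have h1 := (hF R (Finset.mem_filter.mp hR).1).1
      have h1' := (hF R' (Finset.mem_filter.mp hR').1).1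
      have e : P \ (P \ R) = P \ (P \ R') := by
        have : P \ R = P \ R' := heq
        rw [this]
      rwa [Finset.sdiff_sdiff_eq_self h1, Finset.sdiff_sdiff_eq_self h1'] at e
    rw [← Finset.card_image_of_injOn hinj]
    refine red55 hgp hP h hg hgn hj hK hs _ ?_
    intro R' hR'
    obtain ⟨R, hR, rfl⟩ := Finset.mem_image.mp hR'
    obtain ⟨hR1, hR2⟩ := Finset.mem_filter.mp hR
    obtain ⟨h1, h2, h3⟩ := hF R hR1
    refine ⟨Finset.sdiff_subset, ?_, Finset.mem_sdiff.mpr ⟨h.hv, hR2⟩, ?_⟩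
    · rw [Finset.card_sdiff_of_subset h1, hP, h2]; omega
    · rw [Finset.sdiff_sdiff_eq_self h1]
      intro hp
      exact h3 (HasPath.swap Finset.sdiff_disjoint hp)
  have hle : F.card ≤ 2 * Phi n s K ^ j * 4 ^ s := by
    rw [mul_assoc]; omega
  have hle' : (F.card : ℝ) ≤ 2 * ((Phi n s K : ℕ) : ℝ) ^ j * 4 ^ s := by exact_mod_cast hle
  exact hle'.trans hnum

open scoped Classical in
/-- The form with a proportion c of n. -/
theorem main55' {ε : ℝ} (hε : 0 < ε) : ∃ c : ℝ, 0 < c ∧ ∃ n₀ : ℕ, ∀ n : ℕ, n₀ ≤ n →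
    ∀ P : Finset (ℝ × ℝ), GP P → P.card = 2 * n → ∀ F : Finset (Finset (ℝ × ℝ)),
    (∀ R ∈ F, R ⊆ P ∧ R.card = n ∧ ¬ ∃ k : ℕ, (1 + c) * n ≤ k ∧ HasPath R (P \ R) k) →
    (F.card : ℝ) ≤ Real.exp (ε * n) := by
  obtain ⟨u, hu0, hu1, hu2⟩ : ∃ u : ℝ, 0 < u ∧ u ≤ 1 / 2 ∧ 1728000 * u ≤ ε := by
    refine ⟨min (1 / 2) (ε / 1728000), by positivity, min_le_left _ _, ?_⟩
    have := min_le_right (1 / 2) (ε / 1728000)
    linarith
  refine ⟨2 * u ^ 6, by positivity, ⌈1 / (2 * u ^ 6)⌉₊ + 1, ?_⟩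
  intro n hn P hgp hP F hF
  have hc0 : 0 < 2 * u ^ 6 := by positivity
  have hc1 : 2 * u ^ 6 ≤ 1 := by
    have : u ^ 6 ≤ (1 / 2) ^ 6 := pow_le_pow_left₀ hu0.le hu1 6
    norm_num at this
    linarith
  have hnR : 1 / (2 * u ^ 6) ≤ n := by
    have h1 : 1 / (2 * u ^ 6) ≤ (⌈1 / (2 * u ^ 6)⌉₊ : ℝ) := Nat.le_ceil _
    have h2 : ((⌈1 / (2 * u ^ 6)⌉₊ + 1 : ℕ) : ℝ) ≤ n := by exact_mod_cast hn
    push_cast at h2
    linarith
  have hn0 : (0 : ℝ) < n := lt_of_lt_of_le (by positivity) hnR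
  have hcn : 1 ≤ 2 * u ^ 6 * n := by
    rw [div_le_iff₀ hc0] at hnR
    linarith
  obtain ⟨g, hg⟩ : ∃ g : ℕ, g = ⌈2 * u ^ 6 * n⌉₊ := ⟨_, rfl⟩
  have hg1 : 2 * u ^ 6 * n ≤ g := by rw [hg]; exact Nat.le_ceil _
  have hg2 : (g : ℝ) < 2 * u ^ 6 * n + 1 := by rw [hg]; exact Nat.ceil_lt_add_one (by positivity)
  have hg3 : (g : ℝ) ≤ 2 * (2 * u ^ 6 * n) := by linarith
  have hgpos : 1 ≤ g := by
    have : (0 : ℝ) < g := lt_of_lt_of_le (by linarith) hg1
    exact_mod_cast this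
  have hgn : g ≤ n := by
    rw [hg]
    refine Nat.ceil_le.mpr ?_
    nlinarith
  have h := main55 hgp hP hgpos hgn F (by
    intro R hR
    obtain ⟨h1, h2, h3⟩ := hF R hR
    refine ⟨h1, h2, fun hp => h3 ⟨n + g, ?_, hp⟩⟩
    push_cast
    linarith)
  refine h.trans (Real.exp_le_exp.mpr ?_)
  have hgR : (0 : ℝ) < g := by exact_mod_cast hgpos
  have hlog : Real.log (2 * n / g) ≤ 6 / u := by
    have h1 : 2 * (n : ℝ) / g ≤ (1 / u) ^ 6 := by
      rw [div_le_iff₀ hgR]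
      have : (1 / u) ^ 6 * (2 * u ^ 6 * n) = 2 * n := by field_simp
      have h2 : (1 / u) ^ 6 * (2 * u ^ 6 * n) ≤ (1 / u) ^ 6 * g :=
        mul_le_mul_of_nonneg_left hg1 (by positivity)
      linarith
    have h2 : Real.log (2 * n / g) ≤ Real.log ((1 / u) ^ 6) :=
      Real.log_le_log (by positivity) h1
    have h3 : Real.log ((1 / u) ^ 6) = 6 * Real.log (1 / u) := by
      rw [Real.log_pow]; norm_num
    have h4 : Real.log (1 / u) ≤ 1 / u - 1 := Real.log_le_sub_one_of_pos (by positivity)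
    have h5 : 6 / u = 6 * (1 / u) := by ring
    linarith
  have hlog0 : 0 ≤ Real.log (2 * n / g) := by
    apply Real.log_nonneg
    rw [le_div_iff₀ hgR]
    have : (g : ℝ) ≤ n := by exact_mod_cast hgn
    linarith
  have hcube : Real.log (2 * n / g) ^ 3 ≤ (6 / u) ^ 3 := pow_le_pow_left₀ hlog0 hlog 3
  calc 2000 * (g : ℝ) * Real.log (2 * n / g) ^ 3
      ≤ 2000 * (2 * (2 * u ^ 6 * n)) * (6 / u) ^ 3 := by
        apply mul_le_mul _ hcube (by positivity) (by positivity)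
        linarith
    _ = 1728000 * u ^ 3 * n := by field_simp; norm_num
    _ ≤ ε * n := by
        apply mul_le_mul_of_nonneg_right _ hn0.le
        have h6 : u ^ 3 ≤ u := by
          have : u ^ 3 ≤ u ^ 1 := pow_le_pow_of_le_one hu0.le (by linarith) (by norm_num)
          simpa using this
        nlinarith

end Pool.Agent.AltFew
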