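import Pool.Agent.AltFew.Geo34

/-! One step of the decoding: the colours of X and the colours of I. -/

namespace Pool.Agent.AltFew

open Pool.Agent.AltPath Pool.Agent.AltHP Pool.Agent.HPD79 Pool.Agent.AltALL71

theorem Dc47 {R X : Finset (ℝ × ℝ)} : Dc79 R X = 2 * ((R ∩ X).card : ℤ) - (X.card : ℤ) := by
  classical
  unfold Dc79
  have h1 : (X ∩ R).card + (X \ R).card = X.card := by
    rw [add_comm]; exact Finset.card_sdiff_add_card_inter X R
  rw [Finset.inter_comm] at h1 ⊢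
  omega

/-- The numbers of red points. -/
theorem abs47 {R X : Finset (ℝ × ℝ)} {K : ℕ} (h : |Dc79 R X| ≤ K) :
    2 * (R ∩ X).card ≤ X.card + K ∧ X.card ≤ 2 * (R ∩ X).card + K := by
  rw [Dc47, abs_le] at h
  omega

open scoped Classical in
/-- Colourings without long paths have no long continuation at v. -/
theorem not_cont47 {P R : Finset (ℝ × ℝ)} {n g K s : ℕ} {v w : ℝ × ℝ}
    {X I : Finset (ℝ × ℝ)} (hgp : GP P) (hP : P.card = 2 * n) (hvP : v ∈ P) (hXI : X ⊆ I)
    (hIP : I ⊆ P) (hvI : v ∉ I) (hX : IsHP79 P X) (hI : IsHP79 P I)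
    (hvIH : IsHP79 P (insert v I)) (hs : ∀ q ∈ I, dt w (q - v) ≤ 0)
    (hZ : ∀ q ∈ P, q ≠ v → q ∉ I → 0 < dt w (q - v)) (hsK : 3 * K + g ≤ s)
    (hm1 : 2 * X.card + 2 * s ≤ I.card) (hR : R ⊆ P) (hRn : R.card = n) (hv : v ∈ R)
    (hG : ∀ k, HasPath R (P \ R) k → k < n + g)
    (hK : ∀ H, IsHP79 P H → |Dc79 R H| ≤ K) :
    ¬ Cont v (R ∩ (I \ X)) (X \ R) ((I \ X) \ R) (2 * (R ∩ (I \ X)).card) false := by
  intro hc
  have hun : R ∪ P \ R = P := Finset.union_sdiff_of_subset hR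
  have hdis : Disjoint R (P \ R) := Finset.disjoint_sdiff
  obtain ⟨Z, hZdef⟩ : ∃ Z, Z = P \ insert v I := ⟨_, rfl⟩
  have hvIP : insert v I ⊆ P := Finset.insert_subset hvP hIP
  have c0 : Z.card + (insert v I).card = 2 * n := by
    rw [hZdef, Finset.card_sdiff_of_subset hvIP, hP]
    have := Finset.card_le_card hvIP
    omega
  rw [Finset.card_insert_of_notMem hvI] at c0
  obtain ⟨c1, c2⟩ := abs47 (hK _ hI)
  obtain ⟨c3, c4⟩ := abs47 (hK _ hX)
  obtain ⟨c5, c6⟩ := abs47 (hK _ hvIH)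
  rw [Finset.card_insert_of_notMem hvI] at c5 c6
  have c7 : (R ∩ (I \ X)).card + (R ∩ X).card = (R ∩ I).card := by
    rw [← Finset.card_union_of_disjoint]
    · congr 1
      ext q
      simp only [Finset.mem_union, Finset.mem_inter, Finset.mem_sdiff]
      have := @hXI q
      tauto
    · rw [Finset.disjoint_left]
      intro q h1 h2
      exact (Finset.mem_sdiff.mp (Finset.mem_inter.mp h1).2).2 (Finset.mem_inter.mp h2).2
  have c8 : (R ∩ Z).card + (R ∩ insert v I).card = n := by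
    rw [← hRn, ← Finset.card_union_of_disjoint]
    · congr 1
      ext q
      rw [hZdef]
      simp only [Finset.mem_union, Finset.mem_inter, Finset.mem_sdiff]
      have := @hR q
      tauto
    · rw [Finset.disjoint_left]
      intro q h1 h2
      rw [hZdef] at h1
      exact (Finset.mem_sdiff.mp (Finset.mem_inter.mp h1).2).2 (Finset.mem_inter.mp h2).2
  have c9 : (R ∩ Z).card + ((P \ R) ∩ Z).card = Z.card := by
    rw [← Finset.card_union_of_disjoint]
    · congr 1
      ext q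
      rw [hZdef]
      simp only [Finset.mem_union, Finset.mem_inter, Finset.mem_sdiff]
      have := @hR q
      tauto
    · exact Finset.disjoint_of_subset_left Finset.inter_subset_left
        (Finset.disjoint_of_subset_right Finset.inter_subset_left hdis)
  obtain ⟨j, hj⟩ : ∃ j, j = (Z.card - K) / 2 := ⟨_, rfl⟩
  have hZP : Z ⊆ P := by rw [hZdef]; exact Finset.sdiff_subset
  have hpath := path_of_cont (w := w) hdis (by rw [hun]; exact hgp) hv
    (A := R ∩ (I \ X)) (Y := X \ R) (G := (I \ X) \ R) (Z := Z) Finset.inter_subset_left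
    (Finset.sdiff_subset_sdiff (hXI.trans hIP) (Finset.Subset.refl _))
    (Finset.sdiff_subset_sdiff (Finset.sdiff_subset.trans hIP) (Finset.Subset.refl _))
    (fun h => hvI (Finset.mem_sdiff.mp (Finset.mem_inter.mp h).2).1)
    (by
      intro q hq
      apply hs
      rcases Finset.mem_union.mp hq with h | h
      · rcases Finset.mem_union.mp h with h | h
        · exact (Finset.mem_sdiff.mp (Finset.mem_inter.mp h).2).1
        · exact (Finset.mem_sdiff.mp (Finset.mem_sdiff.mp h).1).1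
      · exact hXI (Finset.mem_sdiff.mp h).1)
    (by
      intro q hq
      rw [hZdef, Finset.mem_sdiff, Finset.mem_insert] at hq
      push Not at hq
      exact hZ q hq.1 hq.2.1 hq.2.2)
    (by rw [hun]; exact hZP) (j := j) (by omega) (by omega) hc
  have := hG _ hpath
  omega

open scoped Classical in
/-- One step of the decoding: for given colours on X there are few possibilities for the colours
on I. -/
theorem step47a {P : Finset (ℝ × ℝ)} {n g K s : ℕ} {v w : ℝ × ℝ}
    {X I : Finset (ℝ × ℝ)} (hgp : GP P) (hP : P.card = 2 * n) (hvP : v ∈ P) (hXI : X ⊆ I)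
    (hIP : I ⊆ P) (hvI : v ∉ I) (hX : IsHP79 P X) (hI : IsHP79 P I)
    (hvIH : IsHP79 P (insert v I)) (hs : ∀ q ∈ I, dt w (q - v) ≤ 0)
    (hZ : ∀ q ∈ P, q ≠ v → q ∉ I → 0 < dt w (q - v)) (hsK : 3 * K + g ≤ s)
    (hm1 : 2 * X.card + 2 * s ≤ I.card) (hm2 : I.card ≤ 2 * X.card + 2 * s + 1)
    (F : Finset (Finset (ℝ × ℝ))) (hFP : ∀ R ∈ F, R ⊆ P) (hFn : ∀ R ∈ F, R.card = n)
    (hFv : ∀ R ∈ F, v ∈ R) (hFG : ∀ R ∈ F, ∀ k, HasPath R (P \ R) k → k < n + g)
    (hFK : ∀ R ∈ F, ∀ H, IsHP79 P H → |Dc79 R H| ≤ K) (R0 : Finset (ℝ × ℝ)) (Φ : ℕ → ℕ)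
    (hcnt : ∀ k, ((I \ X).powerset.filter (fun A => A.card = (X \ R0).card + k ∧
      ¬ Cont v A (X \ R0) ((I \ X) \ A) (2 * ((X \ R0).card + k)) false)).card ≤ Φ k) :
    ((F.filter (fun R => R ∩ X = R0)).image (fun R => R ∩ I)).card ≤
      ∑ k ∈ Finset.range (s + 2 * K + 2), Φ k := by
  obtain ⟨U, hU⟩ : ∃ U, U = (Finset.range (s + 2 * K + 2)).biUnion (fun k =>
      (I \ X).powerset.filter (fun A => A.card = (X \ R0).card + k ∧
      ¬ Cont v A (X \ R0) ((I \ X) \ A) (2 * ((X \ R0).card + k)) false)) := ⟨_, rfl⟩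
  have hUc : U.card ≤ ∑ k ∈ Finset.range (s + 2 * K + 2), Φ k := by
    rw [hU]
    exact Finset.card_biUnion_le.trans (Finset.sum_le_sum (fun k _ => hcnt k))
  refine le_trans (le_trans (Finset.card_le_card ?_) (Finset.card_image_le
    (s := U) (f := fun A => R0 ∪ A))) hUc
  intro J hJ
  obtain ⟨R, hR, rfl⟩ := Finset.mem_image.mp hJ
  obtain ⟨hRF, hR0⟩ := Finset.mem_filter.mp hR
  have hc := not_cont47 hgp hP hvP hXI hIP hvI hX hI hvIH hs hZ hsK hm1 (hFP R hRF) (hFn R hRF)
    (hFv R hRF) (hFG R hRF) (hFK R hRF)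
  obtain ⟨A, hA⟩ : ∃ A, A = R ∩ (I \ X) := ⟨_, rfl⟩
  have e1 : X \ R = X \ R0 := by
    ext q
    rw [← hR0]
    simp only [Finset.mem_sdiff, Finset.mem_inter]
    tauto
  have e2 : (I \ X) \ R = (I \ X) \ A := by
    ext q
    rw [hA]
    simp only [Finset.mem_sdiff, Finset.mem_inter]
    tauto
  obtain ⟨c1, c2⟩ := abs47 (hFK R hRF _ hI)
  obtain ⟨c3, c4⟩ := abs47 (hFK R hRF _ hX)
  have c7 : A.card + (R ∩ X).card = (R ∩ I).card := by
    rw [hA, ← Finset.card_union_of_disjoint]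
    · congr 1
      ext q
      simp only [Finset.mem_union, Finset.mem_inter, Finset.mem_sdiff]
      have := @hXI q
      tauto
    · rw [Finset.disjoint_left]
      intro q h1 h2
      exact (Finset.mem_sdiff.mp (Finset.mem_inter.mp h1).2).2 (Finset.mem_inter.mp h2).2
  have c8 : (R ∩ X).card + (X \ R0).card = X.card := by
    rw [← e1, Finset.inter_comm, add_comm]
    exact Finset.card_sdiff_add_card_inter X R
  obtain ⟨k, hk⟩ : ∃ k, A.card = (X \ R0).card + k := ⟨A.card - (X \ R0).card, by omega⟩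
  rw [e1, e2, ← hA, hk] at hc
  refine Finset.mem_image.mpr ⟨A, ?_, ?_⟩
  · rw [hU]
    refine Finset.mem_biUnion.mpr ⟨k, Finset.mem_range.mpr (by omega), Finset.mem_filter.mpr
      ⟨Finset.mem_powerset.mpr (by rw [hA]; exact Finset.inter_subset_right), hk, hc⟩⟩
  · ext q
    rw [← hR0, hA]
    simp only [Finset.mem_union, Finset.mem_inter, Finset.mem_sdiff]
    have := @hXI q
    tauto

open scoped Classical in
/-- The number of traces on I, given the number of traces on X. -/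
theorem rec47 {F : Finset (Finset (ℝ × ℝ))} {X I : Finset (ℝ × ℝ)} (hXI : X ⊆ I) {M : ℕ}
    (h : ∀ R0, ((F.filter (fun R => R ∩ X = R0)).image (fun R => R ∩ I)).card ≤ M) :
    (F.image (fun R => R ∩ I)).card ≤ M * (F.image (fun R => R ∩ X)).card := by
  have e : (F.image (fun R => R ∩ I)).image (fun J => J ∩ X) = F.image (fun R => R ∩ X) := by
    rw [Finset.image_image]
    congr 1
    funext R
    simp only [Function.comp_apply]
    rw [Finset.inter_assoc, Finset.inter_eq_right.mpr hXI]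
  rw [← e]
  refine Finset.card_le_mul_card_image _ M ?_
  intro R0 hR0
  refine (Finset.card_le_card ?_).trans (h R0)
  intro J hJ
  obtain ⟨hJ1, hJ2⟩ := Finset.mem_filter.mp hJ
  obtain ⟨R, hR, rfl⟩ := Finset.mem_image.mp hJ1
  refine Finset.mem_image.mpr ⟨R, Finset.mem_filter.mpr ⟨hR, ?_⟩, rfl⟩
  rw [← hJ2, Finset.inter_assoc, Finset.inter_eq_right.mpr hXI]

end Pool.Agent.AltFew
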